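import Pool.Agent.P8H9.RD.Fam

/-! Equidistribution of the integral members; continuity of the random `L`-function. -/

set_option autoImplicit false

open Filter Topology Finset MeasureTheory ProbabilityTheory

namespace Pool.Agent.P8H9.RD

open Polynomial Pool.Agent.H341R2 Pool.Agent.P8H9.AV

attribute [local instance] fp nz

/-- the reductions of an integral vector -/
def rd {k : ℕ} (c : Fin k → ℤ) : Om k := fun p j => (c j : ZMod (p : ℕ))

section cyl

variable {k : ℕ}

/-- uniform approximation by the values at finitely many primes -/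
theorem unif {Ψ : Om k → ℂ} (hΨ : Continuous Ψ) {ε : ℝ} (hε : 0 < ε) :
    ∃ S : Finset Nat.Primes, ∀ ω ω' : Om k, (∀ p ∈ S, ω p = ω' p) → dist (Ψ ω) (Ψ ω') < ε := by
  classical
  have h1 : ∀ ω : Om k, ∃ I : Finset Nat.Primes, ∀ ω' : Om k, (∀ p ∈ I, ω' p = ω p) →
      dist (Ψ ω') (Ψ ω) < ε / 2 := by
    intro ω
    have h2 : Ψ ⁻¹' Metric.ball (Ψ ω) (ε / 2) ∈ 𝓝 ω :=
      hΨ.continuousAt.preimage_mem_nhds (Metric.ball_mem_nhds _ (by positivity))
    rw [nhds_pi, Filter.mem_pi'] at h2
    obtain ⟨I, t, ht, hI⟩ := h2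
    refine ⟨I, fun ω' h3 => ?_⟩
    have h4 : ω' ∈ Ψ ⁻¹' Metric.ball (Ψ ω) (ε / 2) := by
      apply hI
      intro p hp
      rw [h3 p (by exact_mod_cast hp)]
      exact mem_of_mem_nhds (ht p)
    exact h4
  choose I hI using h1
  have hop : ∀ ω : Om k, IsOpen {ω' : Om k | ∀ p ∈ I ω, ω' p = ω p} := by
    intro ω
    have e : {ω' : Om k | ∀ p ∈ I ω, ω' p = ω p} =
        ⋂ p ∈ I ω, (fun ω' : Om k => ω' p) ⁻¹' {ω p} := by
      ext ω'
      simp
    rw [e]
    exact isOpen_biInter_finset fun p _ => (isOpen_discrete _).preimage (continuous_apply p)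
  obtain ⟨t, ht⟩ := isCompact_univ.elim_finite_subcover
    (fun ω : Om k => {ω' : Om k | ∀ p ∈ I ω, ω' p = ω p}) hop
    (fun ω _ => Set.mem_iUnion.2 ⟨ω, fun _ _ => rfl⟩)
  refine ⟨t.biUnion I, fun ω ω' h => ?_⟩
  obtain ⟨ω₀, hω₀, h3⟩ := Set.mem_iUnion₂.1 (ht (Set.mem_univ ω))
  have h4 : ∀ p ∈ I ω₀, ω p = ω₀ p := h3
  have h5 : ∀ p ∈ I ω₀, ω' p = ω₀ p := fun p hp => by
    rw [← h p (mem_biUnion.2 ⟨ω₀, hω₀, hp⟩)]
    exact h4 p hp
  have h6 := hI ω₀ ω h4
  have h7 := hI ω₀ ω' h5
  rw [dist_comm] at h7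
  linarith [dist_triangle (Ψ ω) (Ψ ω₀) (Ψ ω')]

open Classical in
/-- extension by zero -/
noncomputable def ex (S : Finset Nat.Primes) (a : ∀ p : S, Fin k → ZMod ((p : Nat.Primes) : ℕ)) :
    Om k := fun p => if h : p ∈ S then a ⟨p, h⟩ else 0

/-- restriction -/
def rs (S : Finset Nat.Primes) (ω : Om k) : ∀ p : S, Fin k → ZMod ((p : Nat.Primes) : ℕ) :=
  fun p => ω p

open Classical in
theorem cyl_sum (Ψ : Om k → ℂ) (S : Finset Nat.Primes) (ω : Om k) :
    Ψ (ex S (rs S ω)) = ∑ a : ∀ p : S, Fin k → ZMod ((p : Nat.Primes) : ℕ),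
      Ψ (ex S a) * ∏ p ∈ S, if ω p = ex S a p then (1 : ℂ) else 0 := by
  rw [sum_eq_single (rs S ω)]
  · rw [prod_eq_one, mul_one]
    intro p hp
    rw [if_pos]
    unfold ex rs
    rw [dif_pos hp]
  · intro a _ ha
    rw [prod_eq_zero_iff.2, mul_zero]
    by_contra hcon
    push Not at hcon
    apply ha
    funext p
    have h1 := hcon p.1 p.2
    rw [ne_eq, ite_eq_right_iff] at h1
    push Not at h1
    have h2 := h1.1
    unfold ex at h2
    rw [dif_pos p.2] at h2
    exact h2.symm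
  · intro h
    exact absurd (mem_univ _) h

theorem mean_sum (H : Fin k → ℕ) {ι : Type*} (s : Finset ι) (Φ : ι → (Fin k → ℤ) → ℂ) :
    mean H (fun c => ∑ i ∈ s, Φ i c) = ∑ i ∈ s, mean H (Φ i) := by
  unfold mean
  rw [sum_comm, sum_div]

theorem mean_const_mul (H : Fin k → ℕ) (z : ℂ) (Φ : (Fin k → ℤ) → ℂ) :
    mean H (fun c => z * Φ c) = z * mean H Φ := by
  unfold mean
  rw [← mul_sum, mul_div_assoc]

open Classical in
theorem mean_cyl (Ψ : Om k → ℂ) (S : Finset Nat.Primes) :
    Tendsto (fun H : Fin k → ℕ => mean H fun c => Ψ (ex S (rs S (rd c)))) atTop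
      (𝓝 (∑ a : ∀ p : S, Fin k → ZMod ((p : Nat.Primes) : ℕ),
        Ψ (ex S a) * ∏ p ∈ S, 1 / ((p : ℕ) : ℂ) ^ k)) := by
  simp_rw [cyl_sum Ψ S, mean_sum, mean_const_mul]
  refine tendsto_finsetSum _ fun a _ => tendsto_const_nhds.mul ?_
  have h1 := mean_prod k S fun p x => if x = ex S a p then (1 : ℂ) else 0
  simp only [sum_ite_eq', mem_univ, if_true] at h1
  exact h1

open Classical in
theorem int_cyl (Ψ : Om k → ℂ) (S : Finset Nat.Primes) :
    Integrable (fun ω => Ψ (ex S (rs S ω))) (mu k) ∧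
    ∫ ω, Ψ (ex S (rs S ω)) ∂(mu k) =
      ∑ a : ∀ p : S, Fin k → ZMod ((p : Nat.Primes) : ℕ),
        Ψ (ex S a) * ∏ p ∈ S, 1 / ((p : ℕ) : ℂ) ^ k := by
  have h1 : ∀ (a : ∀ p : S, Fin k → ZMod ((p : Nat.Primes) : ℕ)) (ω : Om k),
      (∏ p ∈ S, if ω p = ex S a p then (1 : ℂ) else 0) =
      (Set.pi (S : Set Nat.Primes) fun p => {ex S a p}).indicator (fun _ => (1 : ℂ)) ω := by
    intro a ω
    by_cases h : ∀ p ∈ S, ω p = ex S a p
    · have hmem : ω ∈ Set.pi (S : Set Nat.Primes) fun p => ({ex S a p} : Set (Fin k → ZMod (p : ℕ))) :=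
        fun p hp => h p (by exact_mod_cast hp)
      rw [Set.indicator_of_mem hmem, prod_eq_one fun p hp => if_pos (h p hp)]
    · rw [Set.indicator_of_notMem]
      · push Not at h
        obtain ⟨p, hp, hne⟩ := h
        exact prod_eq_zero hp (if_neg hne)
      · intro hc
        exact h fun p hp => hc p (by exact_mod_cast hp)
  have hm : ∀ a : ∀ p : S, Fin k → ZMod ((p : Nat.Primes) : ℕ),
      MeasurableSet (Set.pi (S : Set Nat.Primes) fun p => ({ex S a p} : Set (Fin k → ZMod (p : ℕ)))) :=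
    fun a => MeasurableSet.pi S.countable_toSet fun p _ => measurableSet_singleton _
  have hi : ∀ a : ∀ p : S, Fin k → ZMod ((p : Nat.Primes) : ℕ),
      Integrable ((Set.pi (S : Set Nat.Primes) fun p => {ex S a p}).indicator
        (fun _ => (1 : ℂ))) (mu k) := fun a => (integrable_const _).indicator (hm a)
  simp_rw [cyl_sum Ψ S, h1]
  refine ⟨integrable_finsetSum _ fun a _ => (hi a).const_mul _, ?_⟩
  rw [integral_finsetSum _ fun a _ => (hi a).const_mul _]
  refine sum_congr rfl fun a _ => ?_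
  rw [integral_const_mul, integral_indicator_const _ (hm a)]
  congr 1
  have h2 : mu k (Set.pi (S : Set Nat.Primes) fun p => {ex S a p}) =
      ∏ p ∈ S, ((((p : ℕ) : ENNReal) ^ k))⁻¹ := by
    unfold mu
    rw [Measure.infinitePi_pi _ fun p _ => measurableSet_singleton _]
    refine prod_congr rfl fun p _ => ?_
    rw [uniformOn_univ, Measure.count_singleton, Fintype.card_fun, Fintype.card_fin, ZMod.card]
    push_cast
    rw [one_div]
  rw [Measure.real, h2, ENNReal.toReal_prod]
  simp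

instance borelZ (n : ℕ) : BorelSpace (ZMod n) := ⟨borel_eq_top_of_discrete.symm⟩

theorem cont_integrable {Ψ : Om k → ℂ} (hΨ : Continuous Ψ) : Integrable Ψ (mu k) := by
  obtain ⟨B, hB⟩ := isCompact_univ.exists_bound_of_continuousOn hΨ.continuousOn
  exact Integrable.of_bound hΨ.measurable.aestronglyMeasurable B
    (Eventually.of_forall fun ω => hB ω (Set.mem_univ ω))

/-- **equidistribution of the integral members** -/
theorem equi {Ψ : Om k → ℂ} (hΨ : Continuous Ψ) :
    Tendsto (fun H : Fin k → ℕ => mean H fun c => Ψ (rd c)) atTop (𝓝 (∫ ω, Ψ ω ∂(mu k))) := by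
  classical
  rw [Metric.tendsto_nhds]
  intro ε hε
  obtain ⟨S, hS⟩ := unif hΨ (by positivity : 0 < ε / 3)
  have hex : ∀ ω : Om k, ∀ p ∈ S, ω p = ex S (rs S ω) p := by
    intro ω p hp
    unfold ex rs
    rw [dif_pos hp]
  have hd : ∀ ω : Om k, ‖Ψ ω - Ψ (ex S (rs S ω))‖ ≤ ε / 3 := fun ω => by
    rw [← dist_eq_norm]
    exact (hS _ _ (hex ω)).le
  have h1 := mean_cyl Ψ S
  rw [← (int_cyl Ψ S).2] at h1
  have h2 := (Metric.tendsto_nhds.1 h1) (ε / 3) (by positivity)
  filter_upwards [h2] with H hH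
  have h3 : dist (mean H fun c => Ψ (rd c)) (mean H fun c => Ψ (ex S (rs S (rd c)))) ≤ ε / 3 := by
    rw [dist_eq_norm, ← mean_sub]
    exact norm_mean_le H _ _ fun c => hd (rd c)
  have h4 : dist (∫ ω, Ψ (ex S (rs S ω)) ∂(mu k)) (∫ ω, Ψ ω ∂(mu k)) ≤ ε / 3 := by
    rw [dist_comm, dist_eq_norm, ← integral_sub (cont_integrable hΨ) (int_cyl Ψ S).1]
    refine (norm_integral_le_of_norm_le_const (Eventually.of_forall hd)).trans_eq ?_
    rw [probReal_univ, mul_one]
  have h5 := dist_triangle (mean H fun c => Ψ (rd c)) (mean H fun c => Ψ (ex S (rs S (rd c))))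
    (∫ ω, Ψ (ex S (rs S ω)) ∂(mu k))
  have h6 := dist_triangle (mean H fun c => Ψ (rd c)) (∫ ω, Ψ (ex S (rs S ω)) ∂(mu k))
    (∫ ω, Ψ ω ∂(mu k))
  linarith

end cyl

section cont

variable {f : ℤ[X]} {k : ℕ}

theorem bdd_TT (hf : f.Monic) (hodd : Odd f.natDegree) (hk : k ≤ f.natDegree) (ω : Om k) :
    Bdd (co (TT f k) ω) (5 * f.natDegree : ℕ) :=
  ⟨by positivity, fun p j => Tl_bd hf hodd hk p j (ω p)⟩

/-- joint continuity -/
theorem joint (hf : f.Monic) (hodd : Odd f.natDegree) (hk : k ≤ f.natDegree) :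
    Continuous fun x : Om k × {s : ℂ // 3 / 2 < s.re} => logL (co (TT f k) x.1) x.2 := by
  have h1 : ContinuousOn (fun x : Om k × ℂ => ∑' p, Dr (co (TT f k) x.1) 0 p x.2)
      {x : Om k × ℂ | 3 / 2 < x.2.re} := by
    intro x hx
    have hx' : 3 / 2 < x.2.re := hx
    obtain ⟨τ, h2, h3⟩ := exists_between hx'
    have hop : IsOpen {x : Om k × ℂ | τ < x.2.re} :=
      isOpen_lt continuous_const (Complex.continuous_re.comp continuous_snd)
    have h4 : ContinuousOn (fun x : Om k × ℂ => ∑' p, Dr (co (TT f k) x.1) 0 p x.2)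
        {x : Om k × ℂ | τ < x.2.re} := by
      refine continuousOn_tsum (u := fun p => ((5 * f.natDegree : ℕ) : ℝ) /
        (1 - (2 : ℝ) ^ (1 / 2 - τ)) * yy p τ ^ (0 + 1)) (fun p => ?_) ?_ fun p y hy => ?_
      · -- one prime
        have h5 : ∀ a : Fin k → ZMod (p : ℕ), ContinuousOn (fun s : ℂ =>
            Dr (fun _ j => Tl f k p j a) 0 p s) {s : ℂ | 1 / 2 < s.re} := by
          intro a
          have hb : Bdd (fun (q : Nat.Primes) j => if q = p then Tl f k p j a else 0)
              (5 * f.natDegree : ℕ) := by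
            refine ⟨by positivity, fun q j => ?_⟩
            dsimp only
            split_ifs with h
            · subst h
              exact Tl_bd hf hodd hk q j a
            · rw [abs_zero]
              positivity
          have h6 := (Dr_diff hb 0 p).continuousOn
          refine h6.congr fun s _ => ?_
          unfold Dr tm
          simp
        have h7 : ContinuousOn (fun y : (Fin k → ZMod (p : ℕ)) × ℂ =>
            Dr (fun _ j => Tl f k p j y.1) 0 p y.2)
            {y : (Fin k → ZMod (p : ℕ)) × ℂ | 1 / 2 < y.2.re} := by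
          intro y hy
          have hy' : 1 / 2 < y.2.re := hy
          apply ContinuousAt.continuousWithinAt
          have h8 : ContinuousAt (fun s : ℂ => Dr (fun _ j => Tl f k p j y.1) 0 p s) y.2 :=
            (h5 y.1).continuousAt ((isOpen_HP (1 / 2)).mem_nhds hy')
          have h9 : ContinuousAt (fun z : (Fin k → ZMod (p : ℕ)) × ℂ =>
              Dr (fun _ j => Tl f k p j y.1) 0 p z.2) y :=
            ContinuousAt.comp (f := Prod.snd) (x := y) h8 continuousAt_snd
          refine h9.congr ?_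
          have h10 : {z : (Fin k → ZMod (p : ℕ)) × ℂ | z.1 = y.1} ∈ 𝓝 y :=
            ((isOpen_discrete ({y.1} : Set (Fin k → ZMod (p : ℕ)))).preimage
              continuous_fst).mem_nhds rfl
          filter_upwards [h10] with z hz
          have hz' : z.1 = y.1 := hz
          rw [hz']
        have h11 : ContinuousOn (fun x : Om k × ℂ => Dr (fun _ j => Tl f k p j (x.1 p)) 0 p x.2)
            {x : Om k × ℂ | τ < x.2.re} := by
          refine ContinuousOn.comp (g := fun y : (Fin k → ZMod (p : ℕ)) × ℂ =>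
            Dr (fun _ j => Tl f k p j y.1) 0 p y.2) (f := fun x : Om k × ℂ => (x.1 p, x.2)) h7 ?_ ?_
          · exact (((continuous_apply p).comp continuous_fst).prodMk continuous_snd).continuousOn
          · intro x hx
            have : τ < x.2.re := hx
            change 1 / 2 < x.2.re
            linarith
        exact h11
      · exact (summable_yy (r := 0) (by push_cast; linarith)).mul_left _
      · have hy' : τ < y.2.re := hy
        exact norm_Dr (bdd_TT hf hodd hk y.1) 0 p (by linarith) hy'.le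
    exact ((h4 x h3).continuousAt (hop.mem_nhds h3)).continuousWithinAt
  have h2 : Continuous fun x : Om k × {s : ℂ // 3 / 2 < s.re} => (x.1, (x.2 : ℂ)) := by
    exact continuous_fst.prodMk (continuous_subtype_val.comp continuous_snd)
  have h3 := h1.comp_continuous h2 fun x => x.2.2
  exact h3.neg

/-- the random `L`-function as an element of the space of continuous functions -/
theorem exists_Lam (hf : f.Monic) (hodd : Odd f.natDegree) (hk : k ≤ f.natDegree) :
    ∃ Λ : Om k → C({s : ℂ // 3 / 2 < s.re}, ℂ), Continuous Λ ∧ ∀ ω s, Λ ω s = LHat f ω s := by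
  have h1 : Continuous fun x : Om k × {s : ℂ // 3 / 2 < s.re} => LHat f x.1 x.2 := by
    have h2 := (joint hf hodd hk).cexp
    refine h2.congr fun x => ?_
    exact (LHat_exp hf hodd hk x.1 x.2.2).symm
  have h3 : ∀ ω : Om k, Continuous fun s : {s : ℂ // 3 / 2 < s.re} => LHat f ω s := by
    intro ω
    have h4 : Continuous fun s : {s : ℂ // 3 / 2 < s.re} => (ω, s) :=
      continuous_const.prodMk continuous_id
    have h5 := Continuous.comp (g := fun x : Om k × {s : ℂ // 3 / 2 < s.re} => LHat f x.1 x.2) h1 h4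
    simpa only [Function.comp_def] using! h5
  refine ⟨fun ω => ⟨fun s => LHat f ω s, h3 ω⟩, ?_, fun _ _ => rfl⟩
  exact ContinuousMap.continuous_of_continuous_uncurry _ h1

theorem LH1_eq (hf : f.Monic) (hodd : Odd f.natDegree) (hk : k ≤ f.natDegree) (c : Fin k → ℤ)
    {s : ℂ} (hs : 1 / 2 < s.re) : LH1 (member f c) s = LHat f (rd c) s := by
  unfold LH1 LHat
  refine tprod_congr fun p => ?_
  rw [factor_eq hf hodd hk _ p hs, factor_eq hf hodd hk _ p hs]
  congr 1
  funext j
  unfold rd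
  push_cast
  exact (ZMod.natCast_zmod_val _).symm

end cont

end Pool.Agent.P8H9.RD
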