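import Pool.Agent.P8H9.RD.Thm

/-! Natural boundary for meromorphic functions. -/

set_option autoImplicit false

open Filter Topology Finset MeasureTheory ProbabilityTheory

namespace Pool.Agent.P8H9.RD

/-- a meromorphic continuation yields a holomorphic one near another point of the line -/
theorem mero_to_holo {F G : ℂ → ℂ} {w : ℂ} {r : ℝ} (hw : w.re = 1) (hr : 0 < r)
    (hF : MeromorphicOn F (HP 1 ∪ Metric.ball w r)) (hG : DifferentiableOn ℂ G (HP 1))
    (hFG : ∀ s, 3 / 2 < s.re → F s = Complex.exp (G s)) :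
    ∃ (w' : ℂ) (r' : ℝ) (F' : ℂ → ℂ), w'.re = 1 ∧ 0 < r' ∧
      DifferentiableOn ℂ F' (HP 1 ∪ Metric.ball w' r') ∧ ∀ s, 3 / 2 < s.re → F' s = F s := by
  classical
  have hE : DifferentiableOn ℂ (fun s => Complex.exp (G s)) (HP 1) := hG.cexp
  have hEa : AnalyticOnNhd ℂ (fun s => Complex.exp (G s)) (HP 1) := hE.analyticOnNhd (isOpen_HP 1)
  have hF1 : MeromorphicOn F (HP 1) := fun z hz => hF z (Or.inl hz)
  have hd : MeromorphicOn (fun s => F s - Complex.exp (G s)) (HP 1) := fun z hz =>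
    (hF1 z hz).sub (hEa z hz).meromorphicAt
  have h2m : (2 : ℂ) ∈ HP 1 := by
    change (1 : ℝ) < (2 : ℂ).re
    norm_num
  have h2m' : (2 : ℂ) ∈ HP (3 / 2) := by
    change (3 / 2 : ℝ) < (2 : ℂ).re
    norm_num
  have htop : meromorphicOrderAt (fun s => F s - Complex.exp (G s)) 2 = ⊤ := by
    rw [meromorphicOrderAt_eq_top_iff]
    refine eventually_nhdsWithin_of_eventually_nhds ?_
    filter_upwards [(isOpen_HP (3 / 2)).mem_nhds h2m'] with s hs
    rw [hFG s hs, sub_self]
  have hall : ∀ z ∈ HP 1, ∀ᶠ s in 𝓝[≠] z, F s = Complex.exp (G s) := by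
    intro z hz
    by_contra hcon
    have h1 : meromorphicOrderAt (fun s => F s - Complex.exp (G s)) z ≠ ⊤ := by
      intro h2
      apply hcon
      rw [meromorphicOrderAt_eq_top_iff] at h2
      filter_upwards [h2] with s hs
      exact sub_eq_zero.1 hs
    exact hd.meromorphicOrderAt_ne_top_of_isPreconnected (HP_preconn 1) hz h2m h1 htop
  have han := (hF w (Or.inr (Metric.mem_ball_self hr))).eventually_analyticAt
  rw [eventually_nhdsWithin_iff] at han
  obtain ⟨δ, hδ, hδ2⟩ := Metric.eventually_nhds_iff_ball.1 han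
  have hw' : ∀ s ∈ Metric.ball (w + (δ / 2 : ℝ) * Complex.I) (δ / 2), AnalyticAt ℂ F s := by
    intro s hs
    rw [Metric.mem_ball, dist_eq_norm] at hs
    have hn : ‖((δ / 2 : ℝ) : ℂ) * Complex.I‖ = δ / 2 := by
      rw [norm_mul, Complex.norm_I, mul_one, Complex.norm_real, Real.norm_of_nonneg (by positivity)]
    refine hδ2 s ?_ ?_
    · rw [Metric.mem_ball, dist_eq_norm]
      have e : s - w = (s - (w + (δ / 2 : ℝ) * Complex.I)) + (δ / 2 : ℝ) * Complex.I := by ring
      rw [e]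
      refine lt_of_le_of_lt (norm_add_le _ _) ?_
      rw [hn]
      linarith
    · rintro rfl
      have e : s - (s + (δ / 2 : ℝ) * Complex.I) = -(((δ / 2 : ℝ) : ℂ) * Complex.I) := by ring
      rw [e, norm_neg, hn] at hs
      exact lt_irrefl _ hs
  refine ⟨w + (δ / 2 : ℝ) * Complex.I, δ / 2, fun s => if 1 < s.re then Complex.exp (G s) else F s,
    ?_, by positivity, ?_, ?_⟩
  · simp [hw]
  · intro s hs
    apply DifferentiableAt.differentiableWithinAt
    rcases hs with hs | hs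
    · refine ((hE s hs).differentiableAt ((isOpen_HP 1).mem_nhds hs)).congr_of_eventuallyEq ?_
      filter_upwards [(isOpen_HP 1).mem_nhds hs] with z hz
      exact if_pos hz
    · refine (hw' s hs).differentiableAt.congr_of_eventuallyEq ?_
      filter_upwards [Metric.isOpen_ball.mem_nhds hs] with z hz
      by_cases h1 : 1 < z.re
      · rw [if_pos h1]
        have h2 : ∃ᶠ x in 𝓝[≠] z, F x = Complex.exp (G x) := (hall z h1).frequently
        rw [(hw' z hz).frequently_eq_iff_eventually_eq (hEa z h1)] at h2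
        exact h2.self_of_nhds.symm
      · rw [if_neg h1]
  · intro s hs
    simp only
    rw [if_pos (by linarith), hFG s hs]

/-- **natural boundary** -/
theorem Loc.nat_mero {Ω : Type*} [MeasurableSpace Ω] {μ : Measure Ω} [IsProbabilityMeasure μ]
    {T : Nat.Primes → ℕ → Ω → ℝ} {b v : ℝ} {S : Finset Nat.Primes} (h : Loc μ T b v S) :
    ∀ᵐ ω ∂μ, ∀ (w : ℂ) (r : ℝ), w.re = 1 → 0 < r →
    ¬ ∃ F : ℂ → ℂ, MeromorphicOn F (HP 1 ∪ Metric.ball w r) ∧
      ∀ s, 3 / 2 < s.re → F s = Complex.exp (logL (co T ω) s) := by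
  filter_upwards [h.cont, h.nat] with ω h1 h2
  rintro w r hw hr ⟨F, hF, hF2⟩
  obtain ⟨G, hG, hG2⟩ := h1
  obtain ⟨w', r', F', h3, h4, h5, h6⟩ := mero_to_holo hw hr hF hG fun s hs => by
    rw [hF2 s hs, hG2 s hs]
  refine h2 w' r' h3 h4 ⟨F', h5, fun s hs => ?_⟩
  rw [h6 s hs, hF2 s hs]

end Pool.Agent.P8H9.RD
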