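import Pool.Agent.P8H9.RD.Nat

/-! The parts of the logarithm of an Euler product. -/

set_option autoImplicit false

open Filter Topology Finset

namespace Pool.Agent.P8H9.RD

/-- a half plane -/
def HP (σ : ℝ) : Set ℂ := {s : ℂ | σ < s.re}

theorem mem_HP {σ : ℝ} {s : ℂ} : s ∈ HP σ ↔ σ < s.re := Iff.rfl

theorem isOpen_HP (σ : ℝ) : IsOpen (HP σ) := isOpen_lt continuous_const Complex.continuous_re

theorem HP_preconn (σ : ℝ) : IsPreconnected (HP σ) := (convex_halfSpace_re_gt σ).isPreconnected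

theorem HP_mono {σ τ : ℝ} (h : σ ≤ τ) : HP τ ⊆ HP σ := fun _ hs => lt_of_le_of_lt h hs

theorem diff_half {ι : Type*} {F : ι → ℂ → ℂ} {σ : ℝ} (hd : ∀ i, DifferentiableOn ℂ (F i) (HP σ))
    (h : ∀ τ, σ < τ → ∃ u : ι → ℝ, Summable u ∧ ∀ i s, s ∈ HP τ → ‖F i s‖ ≤ u i) :
    DifferentiableOn ℂ (fun s => ∑' i, F i s) (HP σ) := by
  intro s hs
  obtain ⟨τ, h1, h2⟩ := exists_between (mem_HP.1 hs)
  obtain ⟨u, hu, hb⟩ := h τ h1
  have h3 := Complex.differentiableOn_tsum_of_summable_norm hu (fun i => (hd i).mono (HP_mono h1.le))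
    (isOpen_HP τ) hb
  exact ((h3 s h2).differentiableAt ((isOpen_HP τ).mem_nhds h2)).differentiableWithinAt

/-- `p ^ (-s)` -/
noncomputable def px (p : Nat.Primes) (s : ℂ) : ℂ := ((p : ℕ) : ℂ) ^ (-s)

theorem px_diff (p : Nat.Primes) : Differentiable ℂ (px p) := by
  unfold px
  intro s
  exact (differentiableAt_id.neg).const_cpow (Or.inl (by exact_mod_cast p.2.ne_zero))

theorem norm_px (p : Nat.Primes) (s : ℂ) : ‖px p s‖ = ((p : ℕ) : ℝ) ^ (-s.re) := by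
  rw [px, Complex.norm_natCast_cpow_of_pos p.2.pos, Complex.neg_re]

/-- the terms -/
noncomputable def tm (t : Nat.Primes → ℕ → ℝ) (p : Nat.Primes) (j : ℕ) (s : ℂ) : ℂ :=
  (t p (j + 1) : ℂ) / (j + 1 : ℂ) * px p s ^ (j + 1)

/-- the size of the coefficients -/
def Bdd (t : Nat.Primes → ℕ → ℝ) (b : ℝ) : Prop :=
  0 ≤ b ∧ ∀ p j, |t p (j + 1)| ≤ b * (Real.sqrt (p : ℕ)) ^ (j + 1)

/-- the quotient -/
noncomputable def yy (p : Nat.Primes) (σ : ℝ) : ℝ := ((p : ℕ) : ℝ) ^ (1 / 2 - σ)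

theorem yy_pos (p : Nat.Primes) (σ : ℝ) : 0 < yy p σ := by
  have : (0 : ℝ) < (p : ℕ) := by exact_mod_cast p.2.pos
  unfold yy
  positivity

theorem yy_le {σ : ℝ} (hσ : 1 / 2 < σ) (p : Nat.Primes) : yy p σ ≤ (2 : ℝ) ^ (1 / 2 - σ) :=
  Real.rpow_le_rpow_of_nonpos (by norm_num) (by exact_mod_cast p.2.two_le) (by linarith)

theorem y₀_lt {σ : ℝ} (hσ : 1 / 2 < σ) : (2 : ℝ) ^ (1 / 2 - σ) < 1 :=
  Real.rpow_lt_one_of_one_lt_of_neg (by norm_num) (by linarith)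

theorem sq_px (p : Nat.Primes) {σ : ℝ} {s : ℂ} (hs : σ ≤ s.re) :
    Real.sqrt (p : ℕ) * ‖px p s‖ ≤ yy p σ := by
  have hp : (1 : ℝ) ≤ (p : ℕ) := by exact_mod_cast p.2.one_lt.le
  rw [norm_px, Real.sqrt_eq_rpow, ← Real.rpow_add (by linarith), yy]
  exact Real.rpow_le_rpow_of_exponent_le hp (by linarith)

theorem norm_tm {t : Nat.Primes → ℕ → ℝ} {b : ℝ} (h : Bdd t b) (p : Nat.Primes) (j : ℕ) {σ : ℝ}
    {s : ℂ} (hs : σ ≤ s.re) : ‖tm t p j s‖ ≤ b * yy p σ ^ (j + 1) := by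
  have h1 : (1 : ℝ) ≤ ‖(j + 1 : ℂ)‖ := by
    have : (j + 1 : ℂ) = ((j + 1 : ℕ) : ℂ) := by push_cast; rfl
    rw [this, Complex.norm_natCast]
    exact_mod_cast Nat.le_add_left 1 j
  rw [tm, norm_mul, norm_div, Complex.norm_real, Real.norm_eq_abs, norm_pow]
  have h2 : |t p (j + 1)| / ‖(j + 1 : ℂ)‖ ≤ b * (Real.sqrt (p : ℕ)) ^ (j + 1) :=
    (div_le_self (abs_nonneg _) h1).trans (h.2 p j)
  have h0 := h.1
  calc |t p (j + 1)| / ‖(j + 1 : ℂ)‖ * ‖px p s‖ ^ (j + 1)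
      ≤ (b * (Real.sqrt (p : ℕ)) ^ (j + 1)) * ‖px p s‖ ^ (j + 1) :=
        mul_le_mul_of_nonneg_right h2 (by positivity)
    _ = b * (Real.sqrt (p : ℕ) * ‖px p s‖) ^ (j + 1) := by rw [mul_pow]; ring
    _ ≤ b * yy p σ ^ (j + 1) := by
      gcongr
      exact sq_px p hs

/-- the tail of the local logarithm -/
noncomputable def Dr (t : Nat.Primes → ℕ → ℝ) (r : ℕ) (p : Nat.Primes) (s : ℂ) : ℂ :=
  ∑' j : ℕ, tm t p (j + r) s

theorem tm_diff (t : Nat.Primes → ℕ → ℝ) (p : Nat.Primes) (j : ℕ) : Differentiable ℂ (tm t p j) := by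
  unfold tm
  exact ((px_diff p).pow (j + 1)).const_mul _

theorem geo_le (r : ℕ) {y y₀ : ℝ} (h0 : 0 ≤ y) (h1 : y ≤ y₀) (h2 : y₀ < 1) :
    Summable (fun j : ℕ => y ^ (j + r + 1)) ∧ ∑' j : ℕ, y ^ (j + r + 1) ≤ y ^ (r + 1) / (1 - y₀) := by
  have e : ∀ j : ℕ, y ^ (j + r + 1) = y ^ (r + 1) * y ^ j := fun j => by
    rw [← pow_add]
    congr 1
    ring
  simp_rw [e]
  have hs := summable_geometric_of_lt_one h0 (lt_of_le_of_lt h1 h2)
  refine ⟨hs.mul_left _, ?_⟩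
  rw [tsum_mul_left, tsum_geometric_of_lt_one h0 (lt_of_le_of_lt h1 h2), div_eq_mul_inv]
  refine mul_le_mul_of_nonneg_left ?_ (by positivity)
  exact inv_anti₀ (by linarith) (by linarith)

theorem summable_tm {t : Nat.Primes → ℕ → ℝ} {b : ℝ} (h : Bdd t b) (p : Nat.Primes) (r : ℕ)
    {s : ℂ} (hs : 1 / 2 < s.re) : Summable fun j : ℕ => tm t p (j + r) s := by
  have h1 := (geo_le r (yy_pos p s.re).le (yy_le hs p) (y₀_lt hs)).1.mul_left b
  exact Summable.of_norm_bounded h1 fun j => norm_tm h p (j + r) le_rfl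

theorem norm_Dr {t : Nat.Primes → ℕ → ℝ} {b : ℝ} (h : Bdd t b) (r : ℕ) (p : Nat.Primes) {σ : ℝ}
    (hσ : 1 / 2 < σ) {s : ℂ} (hs : σ ≤ s.re) :
    ‖Dr t r p s‖ ≤ b / (1 - (2 : ℝ) ^ (1 / 2 - σ)) * yy p σ ^ (r + 1) := by
  obtain ⟨h1, h2⟩ := geo_le r (yy_pos p σ).le (yy_le hσ p) (y₀_lt hσ)
  have h3 := tsum_of_norm_bounded (f := fun j : ℕ => tm t p (j + r) s) (h1.mul_left b).hasSum
    fun j => norm_tm h p (j + r) hs
  unfold Dr
  refine h3.trans ?_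
  rw [tsum_mul_left]
  refine (mul_le_mul_of_nonneg_left h2 h.1).trans_eq ?_
  ring

theorem Dr_diff {t : Nat.Primes → ℕ → ℝ} {b : ℝ} (h : Bdd t b) (r : ℕ) (p : Nat.Primes) :
    DifferentiableOn ℂ (Dr t r p) (HP (1 / 2)) := by
  refine diff_half (fun j => (tm_diff t p (j + r)).differentiableOn) fun τ hτ => ?_
  refine ⟨fun j => b * yy p τ ^ (j + r + 1),
    (geo_le r (yy_pos p τ).le (yy_le hτ p) (y₀_lt hτ)).1.mul_left b, fun j s hs => ?_⟩
  exact norm_tm h p (j + r) (mem_HP.1 hs).le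

theorem Dr_succ {t : Nat.Primes → ℕ → ℝ} {b : ℝ} (h : Bdd t b) (r : ℕ) (p : Nat.Primes) {s : ℂ}
    (hs : 1 / 2 < s.re) : Dr t r p s = tm t p r s + Dr t (r + 1) p s := by
  unfold Dr
  rw [(summable_tm h p r hs).tsum_eq_zero_add, zero_add]
  congr 1
  refine tsum_congr fun j => ?_
  rw [add_right_comm, add_assoc]

/-- summability over the primes -/
theorem summable_yy {r : ℕ} {σ : ℝ} (hσ : 1 / 2 + 1 / (r + 1 : ℝ) < σ) :
    Summable fun p : Nat.Primes => yy p σ ^ (r + 1) := by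
  have hr : (0 : ℝ) < r + 1 := by positivity
  have h1 : 1 / (r + 1 : ℝ) < σ - 1 / 2 := by linarith
  rw [div_lt_iff₀ hr] at h1
  have h2 : Summable fun p : Nat.Primes => ((p : ℕ) : ℝ) ^ ((1 / 2 - σ) * (r + 1 : ℝ)) :=
    Nat.Primes.summable_rpow.2 (by nlinarith)
  refine h2.congr fun p => ?_
  unfold yy
  rw [← Real.rpow_natCast, ← Real.rpow_mul (Nat.cast_nonneg _)]
  push_cast
  rfl

theorem summable_Dr {t : Nat.Primes → ℕ → ℝ} {b : ℝ} (h : Bdd t b) (r : ℕ) {s : ℂ}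
    (hs : 1 / 2 + 1 / (r + 1 : ℝ) < s.re) : Summable fun p => Dr t r p s := by
  have hr : (0 : ℝ) < 1 / (r + 1 : ℝ) := by positivity
  exact Summable.of_norm_bounded ((summable_yy hs).mul_left _)
    fun p => norm_Dr h r p (by linarith) le_rfl

theorem summable_tmp {t : Nat.Primes → ℕ → ℝ} {b : ℝ} (h : Bdd t b) (r : ℕ) {s : ℂ}
    (hs : 1 / 2 + 1 / (r + 1 : ℝ) < s.re) : Summable fun p => tm t p r s := by
  exact Summable.of_norm_bounded ((summable_yy hs).mul_left b) fun p => norm_tm h p r le_rfl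

theorem sum_Dr_diff {t : Nat.Primes → ℕ → ℝ} {b : ℝ} (h : Bdd t b) (r : ℕ) :
    DifferentiableOn ℂ (fun s => ∑' p, Dr t r p s) (HP (1 / 2 + 1 / (r + 1 : ℝ))) := by
  have hr : (0 : ℝ) < 1 / (r + 1 : ℝ) := by positivity
  refine diff_half (fun p => (Dr_diff h r p).mono (HP_mono (by linarith))) fun τ hτ => ?_
  exact ⟨_, (summable_yy hτ).mul_left _, fun p s hs =>
    norm_Dr h r p (by linarith) (mem_HP.1 hs).le⟩

/-- the logarithm -/
noncomputable def logL (t : Nat.Primes → ℕ → ℝ) (s : ℂ) : ℂ := -∑' p, Dr t 0 p s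

/-- a Dirichlet series with bounded coefficients, over the primes -/
theorem bdd_diff {m : Nat.Primes → ℝ} {b : ℝ} (hm : ∀ p, |m p| ≤ b) :
    DifferentiableOn ℂ (fun s => ∑' p, (m p : ℂ) * px p s) (HP 1) := by
  refine diff_half (fun p => ((px_diff p).const_mul _).differentiableOn) fun τ hτ => ?_
  refine ⟨fun p => b * ((p : ℕ) : ℝ) ^ (-τ), (Nat.Primes.summable_rpow.2 (by linarith)).mul_left b,
    fun p s hs => ?_⟩
  have hp : (1 : ℝ) ≤ (p : ℕ) := by exact_mod_cast p.2.one_lt.le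
  rw [norm_mul, Complex.norm_real, norm_px]
  refine mul_le_mul (hm p) ?_ (by positivity) ((abs_nonneg _).trans (hm p))
  exact Real.rpow_le_rpow_of_exponent_le hp (by have := mem_HP.1 hs; linarith)

theorem bdd_summable {m : Nat.Primes → ℝ} {b : ℝ} (hm : ∀ p, |m p| ≤ b) {s : ℂ} (hs : 1 < s.re) :
    Summable fun p => (m p : ℂ) * px p s := by
  refine Summable.of_norm_bounded ((Nat.Primes.summable_rpow.2
    (by linarith : -s.re < -1)).mul_left b) fun p => ?_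
  rw [norm_mul, Complex.norm_real, norm_px]
  exact mul_le_mul_of_nonneg_right (hm p) (by positivity)

end Pool.Agent.P8H9.RD
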