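import Mathlib

/-! Dirichlet series with small partial sums continue holomorphically. -/

set_option autoImplicit false

open Filter Topology Finset Asymptotics MeasureTheory

namespace Pool.Agent.P8H9.RD

/-- summatory function -/
noncomputable def SF (a : ℕ → ℂ) (t : ℝ) : ℂ := ∑ k ∈ Icc 1 ⌊t⌋₊, a k

theorem SF_measurable (a : ℕ → ℂ) : Measurable (SF a) := by
  have h : Measurable fun n : ℕ => ∑ k ∈ Icc 1 n, a k := measurable_from_top
  exact h.comp Nat.measurable_floor

/-- the continuation -/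
noncomputable def cont (a : ℕ → ℂ) (s : ℂ) : ℂ := s * mellin (SF a) (-s)

theorem SF_zero (a : ℕ → ℂ) {t : ℝ} (ht : t < 1) : SF a t = 0 := by
  unfold SF
  rw [Nat.floor_eq_zero.2 ht]
  simp

theorem cont_eq (a : ℕ → ℂ) {r : ℝ} (hr : 0 ≤ r) {K : ℝ}
    (hK : ∀ n : ℕ, ‖∑ k ∈ Icc 1 n, a k‖ ≤ K * (n : ℝ) ^ r) {s : ℂ} (hs : r < s.re)
    (hS : LSeriesSummable a s) : cont a s = LSeries a s := by
  rw [LSeries_eq_mul_integral a hr hs hS (IsBigO.of_bound K (Eventually.of_forall fun n => ?_)),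
    cont, mellin]
  · congr 1
    have h1 : ∫ t in Set.Ioi (0 : ℝ), (t : ℂ) ^ (-s - 1) • SF a t =
        ∫ t in Set.Ioi (1 : ℝ), (t : ℂ) ^ (-s - 1) • SF a t := by
      refine setIntegral_eq_of_subset_of_ae_sdiff_eq_zero
        measurableSet_Ioi.nullMeasurableSet (Set.Ioi_subset_Ioi zero_le_one) ?_
      have h2 : ∀ᵐ t : ℝ, t ≠ 1 := by
        rw [ae_iff]
        simp
      filter_upwards [h2] with t h3 h4
      rw [SF_zero a, smul_zero]
      have h5 : ¬ (1 < t) := h4.2
      exact lt_of_le_of_ne (not_lt.1 h5) h3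
    rw [h1]
    refine setIntegral_congr_fun measurableSet_Ioi fun t _ => ?_
    simp only [smul_eq_mul, SF]
    rw [mul_comm]
    congr 2
    ring
  · refine (hK n).trans ?_
    rw [Real.norm_of_nonneg (Real.rpow_nonneg (Nat.cast_nonneg n) r)]

theorem cont_diff (a : ℕ → ℂ) {r : ℝ} (hr : 0 ≤ r) {K : ℝ}
    (hK : ∀ n : ℕ, ‖∑ k ∈ Icc 1 n, a k‖ ≤ K * (n : ℝ) ^ r) {s : ℂ} (hs : r < s.re) :
    DifferentiableAt ℂ (cont a) s := by
  have hK' : ∀ t : ℝ, 1 ≤ t → ‖SF a t‖ ≤ |K| * t ^ r := by
    intro t ht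
    refine (hK _).trans ?_
    have h1 : ((⌊t⌋₊ : ℕ) : ℝ) ≤ t := Nat.floor_le (by linarith)
    calc K * ((⌊t⌋₊ : ℕ) : ℝ) ^ r ≤ |K| * ((⌊t⌋₊ : ℕ) : ℝ) ^ r :=
          mul_le_mul_of_nonneg_right (le_abs_self K) (by positivity)
      _ ≤ |K| * t ^ r := by gcongr
  have h1 : DifferentiableAt ℂ (mellin (SF a)) (-s) := by
    refine mellin_differentiableAt_of_isBigO_rpow (a := -r) (b := (-s).re - 1) ?_ ?_ ?_ ?_ ?_
    · have h2 : LocallyIntegrable (SF a) := by
        intro x
        refine ⟨Set.Icc (x - 1) (x + 1), Icc_mem_nhds (by linarith) (by linarith), ?_⟩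
        refine Measure.integrableOn_of_bounded (M := |K| * (max (x + 1) 1) ^ r) ?_
          (SF_measurable a).aestronglyMeasurable ?_
        · exact measure_Icc_lt_top.ne
        · filter_upwards [ae_restrict_mem measurableSet_Icc] with t ht
          by_cases h3 : t < 1
          · rw [SF_zero a h3, norm_zero]
            positivity
          · refine (hK' t (not_lt.1 h3)).trans ?_
            have h4 : (0 : ℝ) ≤ t := by linarith
            have h5 : t ≤ max (x + 1) 1 := ht.2.trans (le_max_left _ _)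
            gcongr
      exact h2.locallyIntegrableOn _
    · refine IsBigO.of_bound |K| ?_
      filter_upwards [eventually_ge_atTop (1 : ℝ)] with t ht
      rw [neg_neg, Real.norm_of_nonneg (Real.rpow_nonneg (by linarith) r)]
      exact hK' t ht
    · rw [Complex.neg_re]
      linarith
    · refine IsBigO.of_bound 1 ?_
      have h2 : ∀ᶠ t : ℝ in 𝓝[>] 0, t < 1 :=
        (eventually_lt_nhds (zero_lt_one)).filter_mono nhdsWithin_le_nhds
      filter_upwards [h2] with t ht
      rw [SF_zero a ht, norm_zero]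
      positivity
    · linarith
  unfold cont
  exact differentiableAt_id.mul (DifferentiableAt.comp (g := mellin (SF a)) s h1
    differentiableAt_id.neg)

end Pool.Agent.P8H9.RD
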