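import Pool.Agent.P8H9.RD.Dec

/-! Random Euler products: continuation and natural boundary. -/

set_option autoImplicit false

open Filter Topology Finset MeasureTheory ProbabilityTheory

namespace Pool.Agent.P8H9.RD

variable {Ω : Type*} [MeasurableSpace Ω]

/-- the local data of a random Euler product -/
structure Loc (μ : Measure Ω) (T : Nat.Primes → ℕ → Ω → ℝ) (b v : ℝ) (S : Finset Nat.Primes) :
    Prop where
  meas : ∀ p j, Measurable (T p j)
  ind : ∀ j, iIndepFun (fun p => T p j) μ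
  pos : 0 < b
  bd : ∀ p j ω, |T p (j + 1) ω| ≤ b * (Real.sqrt (p : ℕ)) ^ (j + 1)
  mean : ∀ p, |∫ ω, T p 1 ω ∂μ| ≤ b
  vpos : 0 < v
  var : ∀ p ∉ S, v * (p : ℕ) ≤ ∫ ω, (T p 1 ω - ∫ ω', T p 1 ω' ∂μ) ^ 2 ∂μ

variable {μ : Measure Ω} [IsProbabilityMeasure μ] {T : Nat.Primes → ℕ → Ω → ℝ} {b v : ℝ}
  {S : Finset Nat.Primes}

/-- the coefficients of a member -/
def co (T : Nat.Primes → ℕ → Ω → ℝ) (ω : Ω) (p : Nat.Primes) (j : ℕ) : ℝ := T p j ω

omit [IsProbabilityMeasure μ] in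
theorem Loc.bdd (h : Loc μ T b v S) (ω : Ω) : Bdd (co T ω) b := ⟨h.pos.le, fun p j => h.bd p j ω⟩

theorem sqrt_one_le (p : Nat.Primes) : 1 ≤ Real.sqrt (p : ℕ) :=
  Real.one_le_sqrt.2 (by exact_mod_cast p.2.one_lt.le)

/-- the mean -/
noncomputable def mn (μ : Measure Ω) (T : Nat.Primes → ℕ → Ω → ℝ) (j : ℕ) (p : Nat.Primes) : ℝ :=
  ∫ ω, T p j ω ∂μ

/-- the normalised coefficient -/
noncomputable def nX (μ : Measure Ω) (T : Nat.Primes → ℕ → Ω → ℝ) (j : ℕ) (p : Nat.Primes)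
    (ω : Ω) : ℝ := (T p j ω - mn μ T j p) / Real.sqrt (p : ℕ) ^ j

theorem Loc.int (h : Loc μ T b v S) (j : ℕ) (p : Nat.Primes) : Integrable (T p (j + 1)) μ :=
  Integrable.of_bound (C := b * (Real.sqrt (p : ℕ)) ^ (j + 1)) (h.meas p _).aestronglyMeasurable
    (Eventually.of_forall fun ω => h.bd p j ω)

theorem Loc.mn_bd (h : Loc μ T b v S) (j : ℕ) (p : Nat.Primes) :
    |mn μ T (j + 1) p| ≤ b * (Real.sqrt (p : ℕ)) ^ (j + 1) := by
  have h1 := norm_integral_le_of_norm_le_const (μ := μ) (f := T p (j + 1))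
    (C := b * (Real.sqrt (p : ℕ)) ^ (j + 1)) (Eventually.of_forall fun ω => h.bd p j ω)
  rw [probReal_univ, mul_one] at h1
  exact h1

theorem Loc.cen (h : Loc μ T b v S) (j : ℕ) : Cen μ (nX μ T (j + 1)) (2 * b) where
  meas p := ((h.meas p (j + 1)).sub_const _).div_const _
  ind := (h.ind (j + 1)).comp
    (fun p x => (x - mn μ T (j + 1) p) / Real.sqrt (p : ℕ) ^ (j + 1))
    fun p => (measurable_id.sub_const _).div_const _
  pos := by have := h.pos; positivity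
  bd p ω := by
    have h0 : 0 < Real.sqrt (p : ℕ) ^ (j + 1) := pow_pos (lt_of_lt_of_le one_pos (sqrt_one_le p)) _
    unfold nX
    rw [abs_div, abs_of_pos h0, div_le_iff₀ h0]
    refine (abs_sub _ _).trans ?_
    have h1 := h.bd p j ω
    have h2 := h.mn_bd j p
    linarith
  mean p := by
    unfold nX
    rw [integral_div, integral_sub (h.int j p) (integrable_const _), integral_const]
    simp [mn]

/-- the deterministic part -/
noncomputable def MM (μ : Measure Ω) (T : Nat.Primes → ℕ → Ω → ℝ) (z : ℂ) : ℂ :=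
  ∑' p : Nat.Primes, (mn μ T 1 p : ℂ) * px p (z + 1 / 2) +
    ∑' p : Nat.Primes, (mn μ T 2 p : ℂ) / 2 * px p (z + 1 / 2) ^ 2

theorem px_shift (p : Nat.Primes) (z : ℂ) :
    ((p : ℕ) : ℂ) ^ (-z) = (Real.sqrt (p : ℕ) : ℂ) * px p (z + 1 / 2) := by
  have hp : ((p : ℕ) : ℂ) ≠ 0 := by exact_mod_cast p.2.ne_zero
  have h1 : (Real.sqrt (p : ℕ) : ℂ) = ((p : ℕ) : ℂ) ^ (1 / 2 : ℂ) := by
    rw [Real.sqrt_eq_rpow, Complex.ofReal_cpow (Nat.cast_nonneg _)]
    push_cast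
    rfl
  rw [h1, px, ← Complex.cpow_add _ _ hp]
  congr 1
  ring

theorem px_double (p : Nat.Primes) (z : ℂ) :
    ((p : ℕ) : ℂ) ^ (-(2 * z)) = (Real.sqrt (p : ℕ) : ℂ) ^ 2 * px p (z + 1 / 2) ^ 2 := by
  rw [← mul_pow, ← px_shift, ← Complex.cpow_nat_mul]
  congr 1
  push_cast
  ring

omit [IsProbabilityMeasure μ] in
/-- the first part -/
theorem part1 (j : ℕ) (ω : Ω) (p : Nat.Primes) (x : ℂ) :
    (T p j ω : ℂ) * x = (nX μ T j p ω : ℂ) * ((Real.sqrt (p : ℕ) : ℂ) ^ j * x) +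
      (mn μ T j p : ℂ) * x := by
  have h0 : (Real.sqrt (p : ℕ) : ℂ) ^ j ≠ 0 := by
    refine pow_ne_zero _ ?_
    have := sqrt_one_le p
    exact_mod_cast (by linarith : Real.sqrt (p : ℕ) ≠ 0)
  unfold nX
  push_cast
  field_simp
  ring

/-- summable series of the random part -/
theorem Loc.sumX (h : Loc μ T b v S) (j : ℕ) (ω : Ω) {z : ℂ} (hz : 1 < z.re) :
    Summable fun p => (nX μ T (j + 1) p ω : ℂ) * ((p : ℕ) : ℂ) ^ (-z) :=
  bdd_summable (m := fun p => nX μ T (j + 1) p ω) (fun p => (h.cen j).bd p ω) hz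

/-- the decomposition -/
theorem Loc.decomp (h : Loc μ T b v S) (ω : Ω) {z : ℂ} (hz : 1 < z.re) :
    -logL (co T ω) (z + 1 / 2) = ∑' p : Nat.Primes, (nX μ T 1 p ω : ℂ) * ((p : ℕ) : ℂ) ^ (-z) +
      MM μ T z + 1 / 2 * ∑' p : Nat.Primes, (nX μ T 2 p ω : ℂ) * ((p : ℕ) : ℂ) ^ (-(2 * z)) +
      ∑' p, Dr (co T ω) 2 p (z + 1 / 2) := by
  have hb := h.bdd ω
  have hre : (z + 1 / 2).re = z.re + 1 / 2 := by simp
  have hs : 3 / 2 < (z + 1 / 2).re := by rw [hre]; linarith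
  have e0 : ∀ p, Dr (co T ω) 0 p (z + 1 / 2) = tm (co T ω) p 0 (z + 1 / 2) +
      (tm (co T ω) p 1 (z + 1 / 2) + Dr (co T ω) 2 p (z + 1 / 2)) := by
    intro p
    rw [Dr_succ hb 0 p (by linarith), Dr_succ hb 1 p (by linarith)]
  have s0 : Summable fun p => tm (co T ω) p 0 (z + 1 / 2) :=
    summable_tmp hb 0 (by push_cast; linarith)
  have s1 : Summable fun p => tm (co T ω) p 1 (z + 1 / 2) :=
    summable_tmp hb 1 (by push_cast; linarith)
  have s2 : Summable fun p => Dr (co T ω) 2 p (z + 1 / 2) :=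
    summable_Dr hb 2 (by push_cast; linarith)
  unfold logL
  rw [neg_neg]
  simp_rw [e0]
  rw [s0.tsum_add (s1.add s2), s1.tsum_add s2]
  -- the first sum
  have x1 := h.sumX 0 ω hz
  have t0 : ∀ p, tm (co T ω) p 0 (z + 1 / 2) = (nX μ T 1 p ω : ℂ) * ((p : ℕ) : ℂ) ^ (-z) +
      (mn μ T 1 p : ℂ) * px p (z + 1 / 2) := by
    intro p
    unfold tm co
    have := part1 (μ := μ) (T := T) 1 ω p (px p (z + 1 / 2))
    rw [pow_one, ← px_shift] at this
    rw [← this]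
    simp
  have m0 : Summable fun p => (mn μ T 1 p : ℂ) * px p (z + 1 / 2) := by
    have := s0.sub x1
    refine this.congr fun p => ?_
    rw [t0]
    ring
  have x2 : Summable fun p => (nX μ T 2 p ω : ℂ) * ((p : ℕ) : ℂ) ^ (-(2 * z)) :=
    h.sumX 1 ω (by
      have : (2 * z).re = 2 * z.re := by simp
      rw [this]
      linarith)
  have t1 : ∀ p, tm (co T ω) p 1 (z + 1 / 2) =
      1 / 2 * ((nX μ T 2 p ω : ℂ) * ((p : ℕ) : ℂ) ^ (-(2 * z))) +
      (mn μ T 2 p : ℂ) / 2 * px p (z + 1 / 2) ^ 2 := by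
    intro p
    unfold tm co
    have := part1 (μ := μ) (T := T) 2 ω p (px p (z + 1 / 2) ^ 2)
    rw [← px_double] at this
    have e2 : (T p (1 + 1) ω : ℂ) / ((1 : ℕ) + 1 : ℂ) * px p (z + 1 / 2) ^ (1 + 1) =
        1 / 2 * ((T p 2 ω : ℂ) * px p (z + 1 / 2) ^ 2) := by
      norm_num
      ring
    rw [e2, this]
    ring
  have m1 : Summable fun p => (mn μ T 2 p : ℂ) / 2 * px p (z + 1 / 2) ^ 2 := by
    have := s1.sub (x2.mul_left (1 / 2))
    refine this.congr fun p => ?_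
    rw [t1]
    ring
  simp_rw [t0, t1]
  rw [x1.tsum_add m0, (x2.mul_left (1 / 2)).tsum_add m1, tsum_mul_left, MM]
  ring

end Pool.Agent.P8H9.RD
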