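import Pool.Agent.P8H9.AV.Defs

/-! Random members of the family: independent uniform reductions at all primes. -/

set_option autoImplicit false

namespace Pool.Agent.P8H9.RD

open Polynomial MeasureTheory ProbabilityTheory Pool.Agent.P8H9.AV

/-- the families `ω = (ω_p)_p`, `ω_p ∈ (ℤ/p)^k`, of reductions of a member at the primes `p` -/
abbrev Om (k : ℕ) : Type := ∀ p : Nat.Primes, Fin k → ZMod (p : ℕ)

/-- the product of the uniform distributions on the sets `(ℤ/p)^k`: the `ω_p` are independent and
uniformly distributed (this is the image of the Haar measure of `Ẑ^k`) -/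
noncomputable def mu (k : ℕ) : Measure (Om k) :=
  Measure.infinitePi fun p : Nat.Primes => uniformOn (Set.univ : Set (Fin k → ZMod (p : ℕ)))

/-- the random `L`-function: the Euler product whose factor at `p` is the Euler factor at `p` of
`L(H¹(C), s)` for a member `C` with reduction `ω_p` modulo `p` -/
noncomputable def LHat (f : ℤ[X]) {k : ℕ} (ω : Om k) (s : ℂ) : ℂ :=
  ∏' p : Nat.Primes, eulerFactor (member f fun j => ((ω p j).val : ℤ)) p s

end Pool.Agent.P8H9.RD
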