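import Pool.Agent.P8H9.RD.Abs

/-! Random Euler products: the two theorems. -/

set_option autoImplicit false

open Filter Topology Finset MeasureTheory ProbabilityTheory

namespace Pool.Agent.P8H9.RD

variable {Ω : Type*} [MeasurableSpace Ω]
  {μ : Measure Ω} [IsProbabilityMeasure μ] {T : Nat.Primes → ℕ → Ω → ℝ} {b v : ℝ}
  {S : Finset Nat.Primes}

theorem Loc.log_split (h : Loc μ T b v S) (ω : Ω) {s : ℂ} (hs : 3 / 2 < s.re) :
    logL (co T ω) s = -(∑' p : Nat.Primes, (nX μ T 1 p ω : ℂ) * ((p : ℕ) : ℂ) ^ (-(s - 1 / 2))) -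
      ∑' p : Nat.Primes, (mn μ T 1 p : ℂ) * px p s - ∑' p, Dr (co T ω) 1 p s := by
  have hb := h.bdd ω
  have hre : (s - 1 / 2).re = s.re - 1 / 2 := by simp
  have e0 : ∀ p, Dr (co T ω) 0 p s = tm (co T ω) p 0 s + Dr (co T ω) 1 p s := fun p =>
    Dr_succ hb 0 p (by linarith)
  have s0 : Summable fun p => tm (co T ω) p 0 s := summable_tmp hb 0 (by push_cast; linarith)
  have s1 : Summable fun p => Dr (co T ω) 1 p s := summable_Dr hb 1 (by push_cast; linarith)
  have x1 := h.sumX 0 ω (z := s - 1 / 2) (by rw [hre]; linarith)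
  have t0 : ∀ p, tm (co T ω) p 0 s = (nX μ T 1 p ω : ℂ) * ((p : ℕ) : ℂ) ^ (-(s - 1 / 2)) +
      (mn μ T 1 p : ℂ) * px p s := by
    intro p
    unfold tm co
    have := part1 (μ := μ) (T := T) 1 ω p (px p s)
    have e : (Real.sqrt (p : ℕ) : ℂ) ^ 1 * px p s = ((p : ℕ) : ℂ) ^ (-(s - 1 / 2)) := by
      rw [px_shift, sub_add_cancel, pow_one]
    rw [e] at this
    rw [← this]
    simp
  have m0 : Summable fun p => (mn μ T 1 p : ℂ) * px p s := by
    have := s0.sub x1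
    refine this.congr fun p => ?_
    rw [t0]
    ring
  unfold logL
  simp_rw [e0]
  rw [s0.tsum_add s1]
  simp_rw [t0]
  rw [x1.tsum_add m0]
  ring

/-- **continuation** -/
theorem Loc.cont (h : Loc μ T b v S) : ∀ᵐ ω ∂μ, ∃ G : ℂ → ℂ, DifferentiableOn ℂ G (HP 1) ∧
    ∀ s, 3 / 2 < s.re → G s = logL (co T ω) s := by
  filter_upwards [(h.cen 0).continues] with ω hω
  obtain ⟨F, hF1, hF2⟩ := hω
  refine ⟨fun s => -F (s - 1 / 2) - ∑' p : Nat.Primes, (mn μ T 1 p : ℂ) * px p s -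
    ∑' p, Dr (co T ω) 1 p s, ?_, fun s hs => ?_⟩
  · refine DifferentiableOn.sub (DifferentiableOn.sub (DifferentiableOn.neg ?_) ?_) ?_
    · refine hF1.comp (differentiableOn_id.sub_const _) fun s hs => ?_
      have h1 : 1 < s.re := hs
      have h2 : (s - 1 / 2).re = s.re - 1 / 2 := by simp
      change 1 / 2 < (s - 1 / 2).re
      rw [h2]
      linarith
    · exact bdd_diff (b := b) fun p => h.mean p
    · refine (sum_Dr_diff (h.bdd ω) 1).mono (HP_mono ?_)
      push_cast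
      norm_num
  · have h2 : (s - 1 / 2).re = s.re - 1 / 2 := by simp
    rw [h.log_split ω hs]
    simp only
    rw [hF2 _ (by rw [h2]; linarith)]

/-- geometry -/
theorem geom {w s : ℂ} {r ε : ℝ} (hw : w.re = 1) (hε0 : 0 < ε) (hε1 : ε ≤ 1 / 8)
    (hε2 : 4 * ε ≤ r ^ 2) (hr : 0 < r) (hs : s ∈ Metric.ball (w + 3 / 2) (3 / 2 + ε)) :
    7 / 8 < s.re ∧ s ∈ HP 1 ∪ Metric.ball w r := by
  rw [Metric.mem_ball, dist_eq_norm] at hs
  have h1 : ‖s - (w + 3 / 2)‖ ^ 2 < (3 / 2 + ε) ^ 2 := by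
    have := norm_nonneg (s - (w + 3 / 2))
    nlinarith
  rw [← Complex.normSq_eq_norm_sq, Complex.normSq_apply] at h1
  have h2 : (s - (w + 3 / 2)).re = s.re - 5 / 2 := by
    simp [hw]
    ring
  have h3 : (s - (w + 3 / 2)).im = s.im - w.im := by
    simp
  rw [h2, h3] at h1
  have h4 : 7 / 8 < s.re := by
    by_contra hcon
    push Not at hcon
    nlinarith [mul_self_nonneg (s.im - w.im)]
  refine ⟨h4, ?_⟩
  by_cases h5 : 1 < s.re
  · exact Or.inl h5
  · right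
    push Not at h5
    rw [Metric.mem_ball, dist_eq_norm]
    have h6 : ‖s - w‖ ^ 2 < r ^ 2 := by
      rw [← Complex.normSq_eq_norm_sq, Complex.normSq_apply, Complex.sub_re, Complex.sub_im, hw]
      nlinarith
    exact lt_of_pow_lt_pow_left₀ 2 hr.le h6

/-- reduction to a disc without zeros -/
theorem find_disc {F G : ℂ → ℂ} {w : ℂ} {r : ℝ} (hw : w.re = 1) (hr : 0 < r)
    (hF : DifferentiableOn ℂ F (HP 1 ∪ Metric.ball w r)) (hFG : ∀ s ∈ HP 1, F s = Complex.exp (G s)) :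
    ∃ (q : ℚ) (n : ℕ), Metric.ball (1 + (q : ℝ) * Complex.I : ℂ) (1 / ((n : ℝ) + 1)) ⊆
      Metric.ball w r ∧ ∀ s ∈ Metric.ball (1 + (q : ℝ) * Complex.I : ℂ) (1 / ((n : ℝ) + 1)),
        F s ≠ 0 := by
  have hop : IsOpen (HP 1 ∪ Metric.ball w r) := (isOpen_HP 1).union Metric.isOpen_ball
  have hwm : w ∈ HP 1 ∪ Metric.ball w r := Or.inr (Metric.mem_ball_self hr)
  have han : AnalyticAt ℂ F w := hF.analyticAt (hop.mem_nhds hwm)
  have hne : ∀ᶠ z in 𝓝[≠] w, F z ≠ 0 := by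
    rcases han.eventually_eq_zero_or_eventually_ne_zero with h0 | h0
    · exfalso
      obtain ⟨δ, hδ, hδ2⟩ := Metric.eventually_nhds_iff_ball.1 h0
      have h1 : w + (δ / 2 : ℝ) ∈ Metric.ball w δ := by
        rw [Metric.mem_ball, dist_eq_norm, add_sub_cancel_left, Complex.norm_real,
          Real.norm_of_nonneg (by positivity)]
        linarith
      have h2 : w + (δ / 2 : ℝ) ∈ HP 1 := by
        change 1 < (w + (δ / 2 : ℝ)).re
        rw [Complex.add_re, hw, Complex.ofReal_re]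
        linarith
      have h3 := hδ2 _ h1
      rw [hFG _ h2] at h3
      exact Complex.exp_ne_zero _ h3
    · exact h0
  rw [eventually_nhdsWithin_iff] at hne
  obtain ⟨δ, hδ, hδ2⟩ := Metric.eventually_nhds_iff_ball.1 hne
  set ρ : ℝ := min δ r with hρ
  have hρ0 : 0 < ρ := lt_min hδ hr
  obtain ⟨q, hq1, hq2⟩ := exists_rat_btwn (by linarith : w.im < w.im + ρ / 2)
  obtain ⟨n, hn⟩ := exists_nat_one_div_lt (lt_min (sub_pos.2 hq1) (by linarith : 0 < ρ / 2))
  have hn1 : 1 / ((n : ℝ) + 1) < (q : ℝ) - w.im := lt_of_lt_of_le hn (min_le_left _ _)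
  have hn2 : 1 / ((n : ℝ) + 1) < ρ / 2 := lt_of_lt_of_le hn (min_le_right _ _)
  have hdist : ‖(1 + (q : ℝ) * Complex.I : ℂ) - w‖ = (q : ℝ) - w.im := by
    have : (1 + (q : ℝ) * Complex.I : ℂ) - w = ((q : ℝ) - w.im : ℝ) * Complex.I := by
      apply Complex.ext
      · simp [hw]
      · simp
    rw [this, norm_mul, Complex.norm_I, mul_one, Complex.norm_real,
      Real.norm_of_nonneg (by linarith)]
  have hsub : ∀ s ∈ Metric.ball (1 + (q : ℝ) * Complex.I : ℂ) (1 / ((n : ℝ) + 1)),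
      s ∈ Metric.ball w ρ ∧ s ≠ w := by
    intro s hs
    rw [Metric.mem_ball, dist_eq_norm] at hs
    constructor
    · rw [Metric.mem_ball, dist_eq_norm]
      have e : s - w = (s - (1 + (q : ℝ) * Complex.I)) + ((1 + (q : ℝ) * Complex.I : ℂ) - w) := by
        ring
      rw [e]
      refine lt_of_le_of_lt (norm_add_le _ _) ?_
      rw [hdist]
      linarith
    · rintro rfl
      rw [norm_sub_rev, hdist] at hs
      linarith
  refine ⟨q, n, fun s hs => ?_, fun s hs => ?_⟩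
  · exact Metric.ball_subset_ball (min_le_right _ _) (hsub s hs).1
  · exact hδ2 s (Metric.ball_subset_ball (min_le_left _ _) (hsub s hs).1) (hsub s hs).2

/-- a logarithm on a disc -/
theorem disc_log {F G : ℂ → ℂ} {c : ℂ} {R ρ : ℝ} (hρ : 0 < ρ) (hρR : ρ ≤ R)
    (hF : DifferentiableOn ℂ F (Metric.ball c R)) (hF0 : ∀ s ∈ Metric.ball c R, F s ≠ 0)
    (hG : DifferentiableOn ℂ G (Metric.ball c ρ))
    (hFG : ∀ s ∈ Metric.ball c ρ, F s = Complex.exp (G s)) :
    ∃ P : ℂ → ℂ, DifferentiableOn ℂ P (Metric.ball c R) ∧ ∀ s ∈ Metric.ball c ρ, P s = G s := by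
  have hd : DifferentiableOn ℂ (fun s => deriv F s / F s) (Metric.ball c R) :=
    (hF.deriv Metric.isOpen_ball).div hF hF0
  obtain ⟨P, hP0, hP⟩ := hd.isExactOn_ball.with_val_at c (G c)
  have hPd : DifferentiableOn ℂ P (Metric.ball c R) := fun s hs =>
    (hP s hs).differentiableAt.differentiableWithinAt
  have hsub : Metric.ball c ρ ⊆ Metric.ball c R := Metric.ball_subset_ball hρR
  refine ⟨P, hPd, ?_⟩
  refine Metric.isOpen_ball.eqOn_of_deriv_eq (convex_ball c ρ).isPreconnected (hPd.mono hsub) hG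
    (fun s hs => ?_) (Metric.mem_ball_self hρ) hP0
  rw [(hP s (hsub hs)).deriv]
  have hGs : DifferentiableAt ℂ G s := (hG s hs).differentiableAt (Metric.isOpen_ball.mem_nhds hs)
  have hev : F =ᶠ[𝓝 s] fun s => Complex.exp (G s) := by
    filter_upwards [Metric.isOpen_ball.mem_nhds hs] with z hz
    exact hFG z hz
  rw [hev.deriv_eq, hGs.hasDerivAt.cexp.deriv, hFG s hs]
  field_simp

/-- **natural boundary** -/
theorem Loc.nat (h : Loc μ T b v S) : ∀ᵐ ω ∂μ, ∀ (w : ℂ) (r : ℝ), w.re = 1 → 0 < r →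
    ¬ ∃ F : ℂ → ℂ, DifferentiableOn ℂ F (HP 1 ∪ Metric.ball w r) ∧
      ∀ s, 3 / 2 < s.re → F s = Complex.exp (logL (co T ω) s) := by
  set ε : ℕ → ℝ := fun n => min (1 / 8) ((1 / ((n : ℝ) + 1)) ^ 2 / 4) with hε
  have hε0 : ∀ n, 0 < ε n := fun n => lt_min (by norm_num) (by positivity)
  have hv : ∀ p ∉ S, v ≤ ∫ ω, nX μ T 1 p ω ^ 2 ∂μ := by
    intro p hp
    have h1 := h.var p hp
    have hp0 : (0 : ℝ) < (p : ℕ) := by exact_mod_cast p.2.pos
    have e : ∀ ω, nX μ T 1 p ω ^ 2 = (T p 1 ω - ∫ ω', T p 1 ω' ∂μ) ^ 2 / (p : ℕ) := by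
      intro ω
      unfold nX mn
      rw [pow_one, div_pow, Real.sq_sqrt hp0.le]
    simp_rw [e]
    rw [integral_div, le_div_iff₀ hp0]
    exact h1
  have hnull : ∀ᵐ ω ∂μ, ∀ (q : ℚ) (n : ℕ), ¬ ∃ F : ℂ → ℂ,
      DifferentiableOn ℂ F (Metric.ball ((1 + (q : ℝ) * Complex.I : ℂ) + 1) (3 / 2 + ε n)) ∧
      ∀ᶠ z in 𝓝 ((1 + (q : ℝ) * Complex.I : ℂ) + 1),
        F z = ∑' p : Nat.Primes, (nX μ T 1 p ω : ℂ) * ((p : ℕ) : ℂ) ^ (-z) + MM μ T z := by
    rw [ae_all_iff]
    intro q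
    rw [ae_all_iff]
    intro n
    refine no_cont (h.cen 0) h.vpos hv (MM μ T) ?_ ?_
    · simp
      norm_num
    · have := hε0 n
      linarith
  filter_upwards [hnull, h.cont, (h.cen 1).continues] with ω h1 h2 h3
  obtain ⟨G, hG1, hG2⟩ := h2
  obtain ⟨F2, hF2, hF2'⟩ := h3
  rintro w r hw hr ⟨F, hF1, hF3⟩
  -- `F` is an exponential on the half plane
  have hFG : ∀ s ∈ HP 1, F s = Complex.exp (G s) := by
    have e1 : AnalyticOnNhd ℂ F (HP 1) := (hF1.mono Set.subset_union_left).analyticOnNhd (isOpen_HP 1)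
    have e2 : AnalyticOnNhd ℂ (fun s => Complex.exp (G s)) (HP 1) :=
      (hG1.cexp).analyticOnNhd (isOpen_HP 1)
    have h2m : (2 : ℂ) ∈ HP 1 := by
      change (1 : ℝ) < (2 : ℂ).re
      norm_num
    refine e1.eqOn_of_preconnected_of_eventuallyEq e2 (HP_preconn 1) h2m ?_
    have h2m' : (2 : ℂ) ∈ HP (3 / 2) := by
      change (3 / 2 : ℝ) < (2 : ℂ).re
      norm_num
    filter_upwards [(isOpen_HP (3 / 2)).mem_nhds h2m'] with s hs
    rw [hF3 s hs, hG2 s hs]
  obtain ⟨q, n, hq1, hq2⟩ := find_disc hw hr hF1 hFG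
  set w' : ℂ := 1 + (q : ℝ) * Complex.I with hw'
  set r' : ℝ := 1 / ((n : ℝ) + 1) with hr'
  have hw're : w'.re = 1 := by simp [hw']
  have hr'0 : 0 < r' := by positivity
  have hε1 : ε n ≤ 1 / 8 := min_le_left _ _
  have hε2 : 4 * ε n ≤ r' ^ 2 := by
    have : ε n ≤ r' ^ 2 / 4 := min_le_right _ _
    linarith
  have hgeo := fun s hs => geom (s := s) hw're (hε0 n) hε1 hε2 hr'0 hs
  have hFb : DifferentiableOn ℂ F (Metric.ball (w' + 3 / 2) (3 / 2 + ε n)) :=
    hF1.mono fun s hs => (hgeo s hs).2.imp id fun hh => hq1 hh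
  have hF0 : ∀ s ∈ Metric.ball (w' + 3 / 2) (3 / 2 + ε n), F s ≠ 0 := by
    intro s hs
    rcases (hgeo s hs).2 with h5 | h5
    · rw [hFG s h5]
      exact Complex.exp_ne_zero _
    · exact hq2 s h5
  have hball : Metric.ball (w' + 3 / 2) 1 ⊆ HP (3 / 2) := by
    intro s hs
    rw [Metric.mem_ball, dist_eq_norm] at hs
    have h6 := Complex.abs_re_le_norm (s - (w' + 3 / 2))
    have h7 : (s - (w' + 3 / 2)).re = s.re - 5 / 2 := by
      simp [hw're]
      ring
    rw [h7] at h6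
    change 3 / 2 < s.re
    have := abs_lt.1 (lt_of_le_of_lt h6 hs)
    linarith [this.1]
  obtain ⟨P, hP1, hP2⟩ := disc_log (G := G) one_pos (by have := hε0 n; linarith) hFb hF0
    (hG1.mono (hball.trans (HP_mono (by norm_num))))
    (fun s hs => hFG s (HP_mono (by norm_num) (hball hs)))
  have hbz : ∀ z ∈ Metric.ball (w' + 1) (3 / 2 + ε n), z + 1 / 2 ∈
      Metric.ball (w' + 3 / 2) (3 / 2 + ε n) := by
    intro z hz
    rw [Metric.mem_ball, dist_eq_norm] at hz ⊢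
    have : z + 1 / 2 - (w' + 3 / 2) = z - (w' + 1) := by ring
    rwa [this]
  have hbre : ∀ z ∈ Metric.ball (w' + 1) (3 / 2 + ε n), 3 / 8 < z.re := by
    intro z hz
    have h8 := (hgeo _ (hbz z hz)).1
    have h9 : (z + 1 / 2).re = z.re + 1 / 2 := by simp
    rw [h9] at h8
    linarith
  refine h1 q n ⟨fun z => -P (z + 1 / 2) - 1 / 2 * F2 (2 * z) -
    ∑' p, Dr (co T ω) 2 p (z + 1 / 2), ?_, ?_⟩
  · refine DifferentiableOn.sub (DifferentiableOn.sub (DifferentiableOn.neg ?_)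
      (DifferentiableOn.const_mul ?_ _)) ?_
    · exact hP1.comp (differentiableOn_id.add_const _) hbz
    · refine hF2.comp (differentiableOn_id.const_mul _) fun z hz => ?_
      have h8 := hbre z hz
      have h9 : (2 * z).re = 2 * z.re := by simp
      change 1 / 2 < (2 * z).re
      rw [h9]
      linarith
    · refine DifferentiableOn.comp (g := fun s => ∑' p, Dr (co T ω) 2 p s)
        (sum_Dr_diff (h.bdd ω) 2) (differentiableOn_id.add_const _) fun z hz => ?_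
      have h8 := (hgeo _ (hbz z hz)).1
      change 1 / 2 + 1 / ((2 : ℕ) + 1 : ℝ) < (z + 1 / 2).re
      push_cast
      norm_num
      norm_num at h8
      linarith
  · filter_upwards [Metric.isOpen_ball.mem_nhds
      (Metric.mem_ball_self one_pos : w' + 1 ∈ Metric.ball (w' + 1) 1)] with z hz
    have h8 : z + 1 / 2 ∈ Metric.ball (w' + 3 / 2) 1 := by
      rw [Metric.mem_ball, dist_eq_norm] at hz ⊢
      have : z + 1 / 2 - (w' + 3 / 2) = z - (w' + 1) := by ring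
      rwa [this]
    have h9 := hball h8
    have h10 : 3 / 2 < (z + 1 / 2).re := h9
    have h11 : (z + 1 / 2).re = z.re + 1 / 2 := by simp
    have h12 : 1 < z.re := by
      rw [h11] at h10
      linarith
    have h13 := h.decomp ω h12
    rw [hP2 _ h8, hG2 _ h9, h13, hF2' (2 * z) (by
      have : (2 * z).re = 2 * z.re := by simp
      rw [this]
      linarith)]
    ring

end Pool.Agent.P8H9.RD
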