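import Pool.Agent.P8H9.RD.Var
import Pool.Agent.P8H9.RD.Thm
import Pool.Agent.P8H9.RD.Defs

/-! The random Euler product of the family. -/

set_option autoImplicit false

open Filter Topology Finset MeasureTheory ProbabilityTheory

namespace Pool.Agent.P8H9.RD

open Polynomial Pool.Agent.H341R2 Pool.Agent.H341R2.Sharp Pool.Agent.P8H9.AV

attribute [local instance] fp nz

/-- integrals of functions of one coordinate -/
theorem int_coord {k : ℕ} (p : Nat.Primes) (g : (Fin k → ZMod (p : ℕ)) → ℝ) :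
    ∫ ω, g (ω p) ∂(mu k) = (∑ a, g a) / ((p : ℕ) : ℝ) ^ k := by
  have h1 : ∫ ω, g (ω p) ∂(mu k) =
      ∫ a, g a ∂(uniformOn (Set.univ : Set (Fin k → ZMod (p : ℕ)))) := by
    have h2 := Measure.infinitePi_map_eval
      (fun p : Nat.Primes => uniformOn (Set.univ : Set (Fin k → ZMod (p : ℕ)))) p
    rw [← h2, integral_map (measurable_pi_apply p).aemeasurable
      (Measurable.of_discrete (f := g)).aestronglyMeasurable]
    rfl
  rw [h1, integral_fintype (Integrable.of_finite), sum_div]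
  refine sum_congr rfl fun a _ => ?_
  have h3 : (uniformOn (Set.univ : Set (Fin k → ZMod (p : ℕ)))).real {a} =
      1 / ((p : ℕ) : ℝ) ^ k := by
    rw [Measure.real, uniformOn_univ, Measure.count_singleton, Fintype.card_fun, Fintype.card_fin,
      ZMod.card]
    simp
  rw [h3, smul_eq_mul]
  ring

instance (k : ℕ) : IsProbabilityMeasure (mu k) := by
  unfold mu
  infer_instance

/-- the traces at `p` -/
noncomputable def Tl (f : ℤ[X]) (k : ℕ) (p : Nat.Primes) (j : ℕ) (a : Fin k → ZMod (p : ℕ)) : ℝ :=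
  if (p : ℕ) = 2 then 0 else tr (fam (red f p) a) j

/-- the traces of a random member -/
noncomputable def TT (f : ℤ[X]) (k : ℕ) (p : Nat.Primes) (j : ℕ) (ω : Om k) : ℝ :=
  Tl f k p j (ω p)

variable {f : ℤ[X]} {k : ℕ}

theorem sq_ZMod (p : Nat.Primes) : AV.sq (ZMod (p : ℕ)) = Real.sqrt (p : ℕ) := by
  unfold AV.sq
  rw [ZMod.card]

theorem Tl_bd (hf : f.Monic) (hodd : Odd f.natDegree) (hk : k ≤ f.natDegree)
    (p : Nat.Primes) (j : ℕ) (a : Fin k → ZMod (p : ℕ)) :
    |Tl f k p (j + 1) a| ≤ (5 * f.natDegree : ℕ) * Real.sqrt (p : ℕ) ^ (j + 1) := by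
  unfold Tl
  split_ifs with h2
  · rw [abs_zero]
    positivity
  · obtain ⟨h3, h4, h5⟩ := red_fam hf hodd hk p a
    have := tr_bd (odd_ringChar h2) h3 h4 (j + 1) (by omega)
    rwa [h5, sq_ZMod] at this

/-- the Euler factor as an exponential -/
theorem gp_exp (hf : f.Monic) (hodd : Odd f.natDegree) (hk : k ≤ f.natDegree) (ω : Om k)
    (p : Nat.Primes) {s : ℂ} (hs : 1 / 2 < s.re) :
    gp f k s p (ω p) = Complex.exp (-Dr (co (TT f k) ω) 0 p s) := by
  unfold gp Dr tm co TT Tl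
  split_ifs with h2
  · simp
  · obtain ⟨h3, h4, h5⟩ := red_fam hf hodd hk p (ω p)
    unfold ell tr
    split_ifs with h6
    · have hx : AV.sq (ZMod (p : ℕ)) * ‖((p : ℕ) : ℂ) ^ (-s)‖ < 1 := by
        rw [size]
        exact Real.rpow_lt_one_of_one_lt_of_neg (by exact_mod_cast p.2.one_lt) (by linarith)
      rw [← exp_local (odd_ringChar h2) h3 h4 hx]
      simp only [add_zero, Complex.ofReal_intCast, px]
    · simp

theorem LHat_exp (hf : f.Monic) (hodd : Odd f.natDegree) (hk : k ≤ f.natDegree) (ω : Om k)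
    {s : ℂ} (hs : 3 / 2 < s.re) : LHat f ω s = Complex.exp (logL (co (TT f k) ω) s) := by
  have hb : Bdd (co (TT f k) ω) (5 * f.natDegree : ℕ) :=
    ⟨by positivity, fun p j => Tl_bd hf hodd hk p j (ω p)⟩
  have h1 : Summable fun p => -Dr (co (TT f k) ω) 0 p s :=
    (summable_Dr hb 0 (by push_cast; linarith)).neg
  have h2 := h1.hasSum.cexp.tprod_eq
  unfold LHat logL
  rw [← tsum_neg, ← h2]
  refine tprod_congr fun p => ?_
  rw [Function.comp_apply, ← gp_exp hf hodd hk ω p (by linarith),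
    factor_eq hf hodd hk _ p (by linarith)]
  congr 1
  funext j
  push_cast
  exact ZMod.natCast_zmod_val _

/-- the local data of the family -/
theorem loc (hf : f.Monic) (hodd : Odd f.natDegree) (hk2 : 2 ≤ k) (hk : k ≤ f.natDegree) :
    ∃ (b : ℝ) (S : Finset Nat.Primes), Loc (mu k) (TT f k) b (1 / 2) S := by
  classical
  set d : ℝ := (f.natDegree : ℝ) with hd
  have hd1 : 1 ≤ d := by
    rw [hd]
    exact_mod_cast (by omega : 1 ≤ f.natDegree)
  set K : ℝ := ((5 * f.natDegree : ℕ) : ℝ) with hK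
  have hKd : K = 5 * d := by
    rw [hK, hd]
    push_cast
    rfl
  have hK0 : 0 < K := by
    rw [hKd]
    linarith
  obtain ⟨N, hN⟩ := exists_nat_ge (2 * (1 + d * K ^ 2 + (d * K) ^ 2))
  have hN2 : 2 ≤ N := by
    have : (2 : ℝ) ≤ N := by
      refine le_trans ?_ hN
      have : 0 ≤ d * K ^ 2 := by positivity
      have : 0 ≤ (d * K) ^ 2 := by positivity
      linarith
    exact_mod_cast this
  have hKb : K ≤ d * K := by nlinarith
  -- the moments
  have hpk : ∀ p : Nat.Primes, (0 : ℝ) < ((p : ℕ) : ℝ) ^ k := fun p => by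
    have : (0 : ℝ) < (p : ℕ) := by exact_mod_cast p.2.pos
    positivity
  have hmom : ∀ p : Nat.Primes, (p : ℕ) ≠ 2 →
      |∑ a : Fin k → ZMod (p : ℕ), Tl f k p 1 a| ≤ d * K * ((p : ℕ) : ℝ) ^ k ∧
      (((p : ℕ) : ℝ) - 1 - d * K ^ 2) * ((p : ℕ) : ℝ) ^ k ≤
        ∑ a : Fin k → ZMod (p : ℕ), Tl f k p 1 a ^ 2 := by
    intro p h2
    have h1 := tr_moments (odd_ringChar h2) (red_monic hf p) (by rw [red_natDegree hf p]; exact hodd)
      hk2 (by rwa [red_natDegree hf p]) f.natDegree (by positivity)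
      (bad_count hf (by omega) hk p)
    rw [red_natDegree hf p, ZMod.card] at h1
    unfold Tl
    simp_rw [if_neg h2]
    exact h1
  have hmean : ∀ p : Nat.Primes, |∫ ω, TT f k p 1 ω ∂(mu k)| ≤ d * K := by
    intro p
    unfold TT
    rw [int_coord p fun a => Tl f k p 1 a, abs_div, abs_of_pos (hpk p), div_le_iff₀ (hpk p)]
    by_cases h2 : (p : ℕ) = 2
    · unfold Tl
      simp_rw [if_pos h2]
      have : 0 ≤ d * K * ((p : ℕ) : ℝ) ^ k := by
        have := hpk p
        positivity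
      simpa using this
    · exact (hmom p h2).1
  refine ⟨d * K, PN N, ?_⟩
  constructor
  · intro p j
    exact (Measurable.of_discrete (f := Tl f k p j)).comp (measurable_pi_apply p)
  · intro j
    exact iIndepFun_infinitePi (X := fun p => Tl f k p j) fun p => Measurable.of_discrete
  · positivity
  · intro p j ω
    refine (Tl_bd hf hodd hk p j (ω p)).trans ?_
    gcongr
  · exact hmean
  · norm_num
  · intro p hp
    have hpN : N < (p : ℕ) := by
      rw [mem_PN] at hp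
      omega
    have h2 : (p : ℕ) ≠ 2 := by omega
    set m := ∫ ω, TT f k p 1 ω ∂(mu k) with hm
    have h3 : ∫ ω, (TT f k p 1 ω - m) ^ 2 ∂(mu k) =
        (∑ a : Fin k → ZMod (p : ℕ), Tl f k p 1 a ^ 2) / ((p : ℕ) : ℝ) ^ k - m ^ 2 := by
      have e1 : ∫ ω, (TT f k p 1 ω - m) ^ 2 ∂(mu k) =
          (∑ a : Fin k → ZMod (p : ℕ), (Tl f k p 1 a - m) ^ 2) / ((p : ℕ) : ℝ) ^ k :=
        int_coord p fun a => (Tl f k p 1 a - m) ^ 2
      have e2 : m = (∑ a : Fin k → ZMod (p : ℕ), Tl f k p 1 a) / ((p : ℕ) : ℝ) ^ k :=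
        int_coord p fun a => Tl f k p 1 a
      have e3 : ∑ a : Fin k → ZMod (p : ℕ), (Tl f k p 1 a - m) ^ 2 =
          ∑ a : Fin k → ZMod (p : ℕ), Tl f k p 1 a ^ 2 -
          2 * m * ∑ a : Fin k → ZMod (p : ℕ), Tl f k p 1 a + ((p : ℕ) : ℝ) ^ k * m ^ 2 := by
        have e4 : ∀ a : Fin k → ZMod (p : ℕ), (Tl f k p 1 a - m) ^ 2 =
            Tl f k p 1 a ^ 2 - 2 * m * Tl f k p 1 a + m ^ 2 := fun a => by ring
        simp_rw [e4]
        rw [sum_add_distrib, sum_sub_distrib, ← mul_sum, sum_const, card_univ, Fintype.card_fun,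
          Fintype.card_fin, ZMod.card, nsmul_eq_mul]
        push_cast
        rfl
      have e5 : ∑ a : Fin k → ZMod (p : ℕ), Tl f k p 1 a = m * ((p : ℕ) : ℝ) ^ k := by
        rw [e2, div_mul_cancel₀ _ (hpk p).ne']
      rw [e1, e3, e5]
      have := (hpk p).ne'
      field_simp
      ring
    rw [h3]
    have h4 : ((p : ℕ) : ℝ) - 1 - d * K ^ 2 ≤
        (∑ a : Fin k → ZMod (p : ℕ), Tl f k p 1 a ^ 2) / ((p : ℕ) : ℝ) ^ k := by
      rw [le_div_iff₀ (hpk p)]
      exact (hmom p h2).2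
    have h5 : m ^ 2 ≤ (d * K) ^ 2 := by
      rw [← sq_abs]
      exact pow_le_pow_left₀ (abs_nonneg _) (hmean p) 2
    have h6 : (N : ℝ) ≤ (p : ℕ) := by exact_mod_cast hpN.le
    linarith

end Pool.Agent.P8H9.RD
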