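import Pool.Agent.P8H9.RD.Law
import Pool.Agent.P8H9.RD.Mero

/-! The limit law of the `L`-functions of the family. -/

set_option autoImplicit false

open Filter Topology Finset MeasureTheory ProbabilityTheory

namespace Pool.Agent.P8H9.RD

open Polynomial Pool.Agent.H341R2 Pool.Agent.P8H9.AV

variable {f : ℤ[X]} {k : ℕ}

theorem law (hf : f.Monic) (hodd : Odd f.natDegree) (hk : k ≤ f.natDegree) :
    ∃ (Λ : Om k → C({s : ℂ // 3 / 2 < s.re}, ℂ)) (L : (Fin k → ℤ) → C({s : ℂ // 3 / 2 < s.re}, ℂ)),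
      (∀ ω s, Λ ω s = LHat f ω s) ∧ (∀ c s, L c s = LH1 (member f c) s) ∧
      ∀ Φ : C({s : ℂ // 3 / 2 < s.re}, ℂ) → ℂ, Continuous Φ →
        Integrable (fun ω => Φ (Λ ω)) (mu k) ∧
        Tendsto (fun H : Fin k → ℕ => mean H fun c => Φ (L c)) atTop
          (𝓝 (∫ ω, Φ (Λ ω) ∂(mu k))) := by
  obtain ⟨Λ, h1, h2⟩ := exists_Lam hf hodd hk
  refine ⟨Λ, fun c => Λ (rd c), h2, fun c s => ?_, fun Φ hΦ => ⟨cont_integrable (hΦ.comp h1), ?_⟩⟩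
  · rw [h2, LH1_eq hf hodd hk c (by linarith [s.2])]
  · exact equi (hΦ.comp h1)

theorem continues (hf : f.Monic) (hodd : Odd f.natDegree) (hk2 : 2 ≤ k) (hk : k ≤ f.natDegree) :
    ∀ᵐ ω ∂(mu k), ∃ G : ℂ → ℂ, DifferentiableOn ℂ G {s : ℂ | 1 < s.re} ∧
      (∀ s : ℂ, 1 < s.re → G s ≠ 0) ∧ ∀ s : ℂ, 3 / 2 < s.re → G s = LHat f ω s := by
  obtain ⟨b, S, h⟩ := loc hf hodd hk2 hk
  filter_upwards [h.cont] with ω hω
  obtain ⟨G, hG1, hG2⟩ := hω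
  refine ⟨fun s => Complex.exp (G s), hG1.cexp, fun s _ => Complex.exp_ne_zero _, fun s hs => ?_⟩
  simp only
  rw [hG2 s hs, LHat_exp hf hodd hk ω hs]

theorem boundary (hf : f.Monic) (hodd : Odd f.natDegree) (hk2 : 2 ≤ k) (hk : k ≤ f.natDegree) :
    ∀ᵐ ω ∂(mu k), ∀ (w : ℂ) (r : ℝ), w.re = 1 → 0 < r →
      ¬ ∃ F : ℂ → ℂ, MeromorphicOn F ({s : ℂ | 1 < s.re} ∪ Metric.ball w r) ∧
        ∀ s : ℂ, 3 / 2 < s.re → F s = LHat f ω s := by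
  obtain ⟨b, S, h⟩ := loc hf hodd hk2 hk
  filter_upwards [h.nat_mero] with ω hω
  rintro w r hw hr ⟨F, hF1, hF2⟩
  refine hω w r hw hr ⟨F, hF1, fun s hs => ?_⟩
  rw [hF2 s hs, LHat_exp hf hodd hk ω hs]

end Pool.Agent.P8H9.RD
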