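import Pool.Agent.P8H9.RD.Abel

/-! Random Dirichlet series over the primes continue almost surely to `Re z > 1/2`. -/

set_option autoImplicit false

open Filter Topology Finset Asymptotics MeasureTheory ProbabilityTheory

namespace Pool.Agent.P8H9.RD

variable {Ω : Type*} [MeasurableSpace Ω]

/-- independent, bounded, centred -/
structure Cen (μ : Measure Ω) (X : Nat.Primes → Ω → ℝ) (C : ℝ) : Prop where
  meas : ∀ p, Measurable (X p)
  ind : iIndepFun X μ
  pos : 0 < C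
  bd : ∀ p ω, |X p ω| ≤ C
  mean : ∀ p, ∫ ω, X p ω ∂μ = 0

/-- the primes up to `N` -/
def PN (N : ℕ) : Finset Nat.Primes := (Finset.range (N + 1)).subtype Nat.Prime

theorem mem_PN {N : ℕ} {p : Nat.Primes} : p ∈ PN N ↔ (p : ℕ) ≤ N :=
  (Finset.mem_subtype (p := Nat.Prime) (s := Finset.range (N + 1)) (a := p)).trans
    (Finset.mem_range.trans Nat.lt_succ_iff)

theorem card_PN (N : ℕ) : (PN N).card ≤ N + 1 :=
  (Finset.card_subtype Nat.Prime (Finset.range (N + 1))).le.trans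
    ((Finset.card_filter_le _ _).trans (by rw [Finset.card_range]))

variable {μ : Measure Ω} [IsProbabilityMeasure μ] {X : Nat.Primes → Ω → ℝ} {C : ℝ}

omit [IsProbabilityMeasure μ] in
theorem Cen.neg (h : Cen μ X C) : Cen μ (fun p ω => -X p ω) C where
  meas p := (h.meas p).neg
  ind := h.ind.comp (fun _ x => -x) fun _ => measurable_neg
  pos := h.pos
  bd p ω := by rw [abs_neg]; exact h.bd p ω
  mean p := by rw [integral_neg, h.mean p, neg_zero]

theorem Cen.tail (h : Cen μ X C) {N : ℕ} (hN : 2 ≤ N) {t : ℝ} (ht : 0 ≤ t) :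
    μ.real {ω | t ≤ ∑ p ∈ PN N, X p ω} ≤ Real.exp (-(t ^ 2 / (2 * (N + 1) * C ^ 2))) := by
  have hsub : ∀ p ∈ PN N, HasSubgaussianMGF (X p) ((‖C - -C‖₊ / 2) ^ 2) μ := by
    intro p _
    refine hasSubgaussianMGF_of_mem_Icc_of_integral_eq_zero (h.meas p).aemeasurable
      (Eventually.of_forall fun ω => abs_le.1 (h.bd p ω)) (h.mean p)
  have h1 := HasSubgaussianMGF.measure_sum_ge_le_of_iIndepFun h.ind hsub ht
  refine h1.trans (Real.exp_le_exp.2 ?_)
  have hc : (((‖C - -C‖₊ / 2) ^ 2 : NNReal) : ℝ) = C ^ 2 := by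
    push_cast
    rw [Real.norm_eq_abs, sub_neg_eq_add, ← two_mul, abs_mul, abs_two, abs_of_pos h.pos]
    ring
  rw [Finset.sum_const, nsmul_eq_mul]
  push_cast
  push_cast at hc
  rw [hc, neg_div, neg_le_neg_iff]
  have h2 : (1 : ℝ) ≤ ((PN N).card : ℝ) := by
    have : 0 < (PN N).card := Finset.card_pos.2 ⟨⟨2, Nat.prime_two⟩, mem_PN.2 hN⟩
    exact_mod_cast this
  have h3 : ((PN N).card : ℝ) ≤ N + 1 := by exact_mod_cast card_PN N
  have h4 : 0 < C ^ 2 := pow_pos h.pos 2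
  have h5 : 2 * (((PN N).card : ℝ) * C ^ 2) ≤ 2 * ((N : ℝ) + 1) * C ^ 2 := by nlinarith
  exact div_le_div_of_nonneg_left (sq_nonneg t) (by positivity) h5

/-- almost surely, square root cancellation -/
theorem Cen.sqrt_bound (h : Cen μ X C) {ε : ℝ} (hε : 0 < ε) :
    ∀ᵐ ω ∂μ, ∀ᶠ N : ℕ in atTop, |∑ p ∈ PN N, X p ω| ≤ (N : ℝ) ^ (1 / 2 + ε) := by
  have hC := h.pos
  have h0 := ae_eventually_notMem (μ := μ)
    (s := fun N : ℕ => {ω | (N : ℝ) ^ (1 / 2 + ε) < |∑ p ∈ PN N, X p ω|}) (by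
      have hb : ∀ᶠ N : ℕ in atTop, μ.real {ω | (N : ℝ) ^ (1 / 2 + ε) < |∑ p ∈ PN N, X p ω|} ≤
          2 * Real.exp (-(1 / (4 * C ^ 2)) * ((N : ℝ) ^ (2 * ε))) := by
        filter_upwards [eventually_ge_atTop 2] with N hN
        have hN1 : (1 : ℝ) ≤ N := by exact_mod_cast (by omega : 1 ≤ N)
        have hN0 : (0 : ℝ) < N := by linarith
        have hsub : {ω | (N : ℝ) ^ (1 / 2 + ε) < |∑ p ∈ PN N, X p ω|} ⊆
            {ω | (N : ℝ) ^ (1 / 2 + ε) ≤ ∑ p ∈ PN N, X p ω} ∪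
            {ω | (N : ℝ) ^ (1 / 2 + ε) ≤ ∑ p ∈ PN N, -X p ω} := by
          intro ω hω
          have hω' : (N : ℝ) ^ (1 / 2 + ε) < |∑ p ∈ PN N, X p ω| := hω
          rw [lt_abs] at hω'
          rcases hω' with h1 | h1
          · exact Or.inl h1.le
          · right
            change (N : ℝ) ^ (1 / 2 + ε) ≤ ∑ p ∈ PN N, -X p ω
            rw [Finset.sum_neg_distrib]
            exact h1.le
        refine (measureReal_mono hsub).trans ((measureReal_union_le _ _).trans ?_)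
        have ht : (0 : ℝ) ≤ (N : ℝ) ^ (1 / 2 + ε) := by positivity
        have h1 := h.tail hN ht
        have h2 := h.neg.tail hN ht
        have h3 : Real.exp (-(((N : ℝ) ^ (1 / 2 + ε)) ^ 2 / (2 * (N + 1) * C ^ 2))) ≤
            Real.exp (-(1 / (4 * C ^ 2)) * ((N : ℝ) ^ (2 * ε))) := by
          refine Real.exp_le_exp.2 ?_
          have e1 : ((N : ℝ) ^ (1 / 2 + ε)) ^ 2 = N * (N : ℝ) ^ (2 * ε) := by
            rw [← Real.rpow_natCast, ← Real.rpow_mul hN0.le]
            have : (1 / 2 + ε) * ((2 : ℕ) : ℝ) = 1 + 2 * ε := by push_cast; ring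
            rw [this, Real.rpow_add hN0, Real.rpow_one]
          rw [e1, neg_mul, neg_le_neg_iff]
          have e2 : 0 < (N : ℝ) ^ (2 * ε) := by positivity
          rw [div_mul_eq_mul_div, one_mul, div_le_div_iff₀ (by positivity) (by positivity)]
          have e3 : (0 : ℝ) < C ^ 2 := by positivity
          nlinarith [mul_pos e2 e3]
        linarith
      have hsum : Summable fun N : ℕ => 2 * Real.exp (-(1 / (4 * C ^ 2)) * ((N : ℝ) ^ (2 * ε))) := by
        refine Summable.mul_left _ ?_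
        have h1 := (isLittleO_exp_neg_mul_rpow_atTop (a := 1 / (4 * C ^ 2)) (by positivity)
          (-(1 / ε))).isBigO
        have h2 : Tendsto (fun N : ℕ => (N : ℝ) ^ (2 * ε)) atTop atTop :=
          (tendsto_rpow_atTop (by positivity)).comp tendsto_natCast_atTop_atTop
        have h3 := h1.comp_tendsto h2
        have h4 : Summable fun N : ℕ => ((N : ℝ) ^ (2 * ε)) ^ (-(1 / ε)) := by
          have : (fun N : ℕ => ((N : ℝ) ^ (2 * ε)) ^ (-(1 / ε))) = fun N : ℕ => (N : ℝ) ^ (-2 : ℝ) := by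
            funext N
            rw [← Real.rpow_mul (Nat.cast_nonneg N)]
            congr 1
            field_simp
          rw [this]
          exact Real.summable_nat_rpow.2 (by norm_num)
        exact summable_of_isBigO_nat h4 h3
      have hsum2 : Summable fun N : ℕ =>
          μ.real {ω | (N : ℝ) ^ (1 / 2 + ε) < |∑ p ∈ PN N, X p ω|} := by
        refine summable_of_isBigO_nat hsum (IsBigO.of_bound 1 ?_)
        filter_upwards [hb] with N hN
        rw [Real.norm_of_nonneg measureReal_nonneg, Real.norm_of_nonneg (by positivity), one_mul]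
        exact hN
      have h5 : ∀ N : ℕ, μ {ω | (N : ℝ) ^ (1 / 2 + ε) < |∑ p ∈ PN N, X p ω|} =
          ENNReal.ofReal (μ.real {ω | (N : ℝ) ^ (1 / 2 + ε) < |∑ p ∈ PN N, X p ω|}) := by
        intro N
        rw [ofReal_measureReal]
      simp_rw [h5]
      exact hsum2.tsum_ofReal_ne_top)
  filter_upwards [h0] with ω hω
  filter_upwards [hω] with N hN
  exact not_lt.1 hN

/-- the coefficients as a sequence -/
noncomputable def seq (x : Nat.Primes → ℝ) (n : ℕ) : ℂ := if h : n.Prime then (x ⟨n, h⟩ : ℂ) else 0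

theorem seq_prime (x : Nat.Primes → ℝ) (p : Nat.Primes) : seq x p = x p := by
  unfold seq
  rw [dif_pos p.2]
  rfl

theorem sum_seq (x : Nat.Primes → ℝ) (N : ℕ) :
    ∑ k ∈ Icc 1 N, seq x k = ((∑ p ∈ PN N, x p : ℝ) : ℂ) := by
  have h1 : ∑ k ∈ Icc 1 N, seq x k = ∑ k ∈ (Finset.range (N + 1)).filter Nat.Prime, seq x k := by
    symm
    apply Finset.sum_subset_zero_on_sdiff
    · intro k hk
      rw [Finset.mem_filter, Finset.mem_range] at hk
      rw [Finset.mem_Icc]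
      exact ⟨hk.2.one_lt.le, by omega⟩
    · intro k hk
      rw [Finset.mem_sdiff, Finset.mem_Icc, Finset.mem_filter, Finset.mem_range] at hk
      unfold seq
      rw [dif_neg]
      intro h
      exact hk.2 ⟨by omega, h⟩
    · intro _ _
      rfl
  rw [h1]
  push_cast
  unfold PN
  rw [← Finset.sum_subtype_eq_sum_filter]
  exact Finset.sum_congr rfl fun p _ => seq_prime x p

theorem seq_summable {x : Nat.Primes → ℝ} {C : ℝ} (hx : ∀ p, |x p| ≤ C) {z : ℂ} (hz : 1 < z.re) :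
    LSeriesSummable (seq x) z := by
  refine LSeriesSummable_of_bounded_of_one_lt_re (m := |C|) (fun n _ => ?_) hz
  unfold seq
  split_ifs
  · rw [Complex.norm_real]
    exact (hx _).trans (le_abs_self C)
  · rw [norm_zero]
    exact abs_nonneg C

theorem seq_LSeries (x : Nat.Primes → ℝ) (z : ℂ) :
    LSeries (seq x) z = ∑' p : Nat.Primes, (x p : ℂ) * ((p : ℕ) : ℂ) ^ (-z) := by
  have h1 : ∑' p : Nat.Primes, (x p : ℂ) * ((p : ℕ) : ℂ) ^ (-z) =
      ∑' p : Nat.Primes, LSeries.term (seq x) z p := by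
    refine tsum_congr fun p => ?_
    rw [LSeries.term_of_ne_zero p.2.ne_zero, seq_prime, Complex.cpow_neg, div_eq_mul_inv]
  rw [h1, LSeries]
  have h2 : Function.support (LSeries.term (seq x) z) ⊆ Set.range ((↑) : Nat.Primes → ℕ) := by
    intro n hn
    rw [Function.mem_support] at hn
    by_contra hp
    apply hn
    rcases eq_or_ne n 0 with h0 | h0
    · rw [h0, LSeries.term_zero]
    · rw [LSeries.term_of_ne_zero h0]
      unfold seq
      rw [dif_neg, zero_div]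
      intro h
      exact hp ⟨⟨n, h⟩, rfl⟩
  exact (Nat.Primes.coe_nat_injective.tsum_eq h2).symm

/-- **Random Dirichlet series over the primes.** -/
theorem Cen.continues (h : Cen μ X C) : ∀ᵐ ω ∂μ, ∃ F : ℂ → ℂ,
    DifferentiableOn ℂ F {z : ℂ | 1 / 2 < z.re} ∧
    ∀ z : ℂ, 1 < z.re → F z = ∑' p : Nat.Primes, (X p ω : ℂ) * ((p : ℕ) : ℂ) ^ (-z) := by
  have h1 : ∀ᵐ ω ∂μ, ∀ j : ℕ, ∀ᶠ N : ℕ in atTop,
      |∑ p ∈ PN N, X p ω| ≤ (N : ℝ) ^ (1 / 2 + 1 / ((j : ℝ) + 1)) :=
    ae_all_iff.2 fun j => h.sqrt_bound (by positivity)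
  filter_upwards [h1] with ω hω
  set x : Nat.Primes → ℝ := fun p => X p ω with hx
  have hb : ∀ j : ℕ, ∃ K : ℝ, ∀ n : ℕ, ‖∑ k ∈ Icc 1 n, seq x k‖ ≤
      K * (n : ℝ) ^ (1 / 2 + 1 / ((j : ℝ) + 1)) := by
    intro j
    obtain ⟨N₀, hN₀⟩ := eventually_atTop.1 (hω j)
    refine ⟨1 + ∑ n ∈ Finset.range N₀, ‖∑ k ∈ Icc 1 n, seq x k‖, fun n => ?_⟩
    have hj : (0 : ℝ) < 1 / 2 + 1 / ((j : ℝ) + 1) := by positivity
    rcases Nat.eq_zero_or_pos n with h0 | h0
    · subst h0
      rw [Nat.cast_zero, Real.zero_rpow hj.ne']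
      simp
    · have hn1 : (1 : ℝ) ≤ (n : ℝ) ^ (1 / 2 + 1 / ((j : ℝ) + 1)) :=
        Real.one_le_rpow (by exact_mod_cast h0) hj.le
      have hs : 0 ≤ ∑ n ∈ Finset.range N₀, ‖∑ k ∈ Icc 1 n, seq x k‖ :=
        Finset.sum_nonneg fun _ _ => norm_nonneg _
      rcases lt_or_ge n N₀ with h2 | h2
      · have h3 : ‖∑ k ∈ Icc 1 n, seq x k‖ ≤ ∑ n ∈ Finset.range N₀, ‖∑ k ∈ Icc 1 n, seq x k‖ :=
          Finset.single_le_sum (f := fun n => ‖∑ k ∈ Icc 1 n, seq x k‖)
            (fun _ _ => norm_nonneg _) (Finset.mem_range.2 h2)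
        nlinarith
      · have h3 := hN₀ n h2
        rw [sum_seq, Complex.norm_real, Real.norm_eq_abs]
        nlinarith
  refine ⟨cont (seq x), fun z hz => ?_, fun z hz => ?_⟩
  · have hz' : 1 / 2 < z.re := hz
    obtain ⟨j, hj⟩ := exists_nat_one_div_lt (sub_pos.2 hz')
    obtain ⟨K, hK⟩ := hb j
    exact (cont_diff (seq x) (by positivity) hK (by linarith)).differentiableWithinAt
  · obtain ⟨j, hj⟩ := exists_nat_one_div_lt (show (0 : ℝ) < z.re - 1 / 2 by linarith)
    obtain ⟨K, hK⟩ := hb j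
    rw [cont_eq (seq x) (by positivity) hK (by linarith)
      (seq_summable (fun p => h.bd p ω) hz), seq_LSeries]

end Pool.Agent.P8H9.RD
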