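import Pool.Agent.P8H9.RD.Hoeff

/-! Second and fourth moments of sums of independent variables. -/

set_option autoImplicit false

open Filter Topology Finset MeasureTheory ProbabilityTheory

namespace Pool.Agent.P8H9.RD

variable {Ω : Type*} [MeasurableSpace Ω] {μ : Measure Ω} [IsProbabilityMeasure μ]
  {X : Nat.Primes → Ω → ℝ} {C : ℝ}

/-- finite sums -/
noncomputable def Yf (X : Nat.Primes → Ω → ℝ) (a : Nat.Primes → ℝ) (S : Finset Nat.Primes) (ω : Ω) :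
    ℝ := ∑ p ∈ S, a p * X p ω

omit [IsProbabilityMeasure μ] in
theorem Cen.meas_Y (h : Cen μ X C) (a : Nat.Primes → ℝ) (S : Finset Nat.Primes) :
    Measurable (Yf X a S) := by
  unfold Yf
  exact Finset.measurable_fun_sum S fun p _ => (h.meas p).const_mul (a p)

omit [IsProbabilityMeasure μ] in
theorem Cen.bd_Y (h : Cen μ X C) (a : Nat.Primes → ℝ) (S : Finset Nat.Primes) (ω : Ω) :
    |Yf X a S ω| ≤ C * ∑ p ∈ S, |a p| := by
  unfold Yf
  rw [mul_sum]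
  refine (abs_sum_le_sum_abs _ _).trans (sum_le_sum fun p _ => ?_)
  rw [abs_mul, mul_comm]
  exact mul_le_mul_of_nonneg_right (h.bd p ω) (abs_nonneg _)

theorem Cen.int_pow (h : Cen μ X C) (a : Nat.Primes → ℝ) (S : Finset Nat.Primes) (p : Nat.Primes)
    (i j : ℕ) : Integrable (fun ω => Yf X a S ω ^ i * X p ω ^ j) μ := by
  refine Integrable.of_bound (C := (C * ∑ p ∈ S, |a p|) ^ i * C ^ j)
    (((h.meas_Y a S).pow_const i).mul ((h.meas p).pow_const j)).aestronglyMeasurable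
    (Eventually.of_forall fun ω => ?_)
  rw [Real.norm_eq_abs, abs_mul, abs_pow, abs_pow]
  exact mul_le_mul (pow_le_pow_left₀ (abs_nonneg _) (h.bd_Y a S ω) i)
    (pow_le_pow_left₀ (abs_nonneg _) (h.bd p ω) j) (by positivity)
    (pow_nonneg ((abs_nonneg _).trans (h.bd_Y a S ω)) i)

omit [IsProbabilityMeasure μ] in
theorem Cen.indep (h : Cen μ X C) (a : Nat.Primes → ℝ) {S : Finset Nat.Primes} {p : Nat.Primes}
    (hp : p ∉ S) (i j : ℕ) :
    ∫ ω, Yf X a S ω ^ i * X p ω ^ j ∂μ = (∫ ω, Yf X a S ω ^ i ∂μ) * ∫ ω, X p ω ^ j ∂μ := by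
  have h1 : iIndepFun (fun p ω => a p * X p ω) μ :=
    h.ind.comp (fun p x => a p * x) fun p => measurable_const_mul (a p)
  -- replace the value at `p`
  classical
  have h2 : iIndepFun (fun q ω => (if q = p then 1 else a q) * X q ω) μ :=
    h.ind.comp (fun q x => (if q = p then 1 else a q) * x) fun q => measurable_const_mul _
  have h3 := h2.indepFun_finsetSum_of_notMem (fun q => (h.meas q).const_mul _) hp
  have h4 : (∑ q ∈ S, fun ω => (if q = p then 1 else a q) * X q ω) = Yf X a S := by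
    funext ω
    rw [Finset.sum_apply]
    unfold Yf
    refine sum_congr rfl fun q hq => ?_
    rw [if_neg]
    rintro rfl
    exact hp hq
  rw [h4] at h3
  simp only [if_true, one_mul] at h3
  have h5 := h3.comp (φ := fun x : ℝ => x ^ i) (ψ := fun x : ℝ => x ^ j)
    (measurable_id.pow_const i) (measurable_id.pow_const j)
  exact h5.integral_fun_mul_eq_mul_integral ((h.meas_Y a S).pow_const i).aestronglyMeasurable
    ((h.meas p).pow_const j).aestronglyMeasurable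

theorem Cen.mean_Y (h : Cen μ X C) (a : Nat.Primes → ℝ) (S : Finset Nat.Primes) :
    ∫ ω, Yf X a S ω ∂μ = 0 := by
  unfold Yf
  rw [integral_finsetSum]
  · refine sum_eq_zero fun p _ => ?_
    rw [integral_const_mul, h.mean p, mul_zero]
  · intro p _
    have := h.int_pow a ∅ p 0 1
    simp only [pow_zero, one_mul, pow_one] at this
    exact this.const_mul (a p)

theorem Cen.sq_insert (h : Cen μ X C) (a : Nat.Primes → ℝ) {S : Finset Nat.Primes} {p : Nat.Primes}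
    [DecidableEq Nat.Primes] (hp : p ∉ S) :
    ∫ ω, Yf X a (insert p S) ω ^ 2 ∂μ = ∫ ω, Yf X a S ω ^ 2 ∂μ + a p ^ 2 * ∫ ω, X p ω ^ 2 ∂μ := by
  have h1 : ∀ ω, Yf X a (insert p S) ω ^ 2 = Yf X a S ω ^ 2 * X p ω ^ 0 +
      (2 * a p * (Yf X a S ω ^ 1 * X p ω ^ 1) + a p ^ 2 * (Yf X a S ω ^ 0 * X p ω ^ 2)) := by
    intro ω
    have : Yf X a (insert p S) ω = a p * X p ω + Yf X a S ω := sum_insert hp
    rw [this]
    ring
  simp_rw [h1]
  have i1 := (h.int_pow a S p 1 1).const_mul (2 * a p)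
  have i2 := (h.int_pow a S p 0 2).const_mul (a p ^ 2)
  have i12 : Integrable (fun ω => 2 * a p * (Yf X a S ω ^ 1 * X p ω ^ 1) +
      a p ^ 2 * (Yf X a S ω ^ 0 * X p ω ^ 2)) μ := i1.add i2
  rw [integral_add (h.int_pow a S p 2 0) i12, integral_add i1 i2,
    integral_const_mul, integral_const_mul, h.indep a hp 1 1]
  simp only [pow_one, pow_zero, one_mul, mul_one]
  rw [h.mean p]
  ring

theorem Cen.four_insert (h : Cen μ X C) (a : Nat.Primes → ℝ) {S : Finset Nat.Primes}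
    {p : Nat.Primes} [DecidableEq Nat.Primes] (hp : p ∉ S) :
    ∫ ω, Yf X a (insert p S) ω ^ 4 ∂μ = ∫ ω, Yf X a S ω ^ 4 ∂μ +
      6 * a p ^ 2 * ((∫ ω, Yf X a S ω ^ 2 ∂μ) * ∫ ω, X p ω ^ 2 ∂μ) +
      a p ^ 4 * ∫ ω, X p ω ^ 4 ∂μ := by
  have h1 : ∀ ω, Yf X a (insert p S) ω ^ 4 = Yf X a S ω ^ 4 * X p ω ^ 0 +
      (4 * a p * (Yf X a S ω ^ 3 * X p ω ^ 1) + (6 * a p ^ 2 * (Yf X a S ω ^ 2 * X p ω ^ 2) +
      (4 * a p ^ 3 * (Yf X a S ω ^ 1 * X p ω ^ 3) + a p ^ 4 * (Yf X a S ω ^ 0 * X p ω ^ 4)))) := by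
    intro ω
    have : Yf X a (insert p S) ω = a p * X p ω + Yf X a S ω := sum_insert hp
    rw [this]
    ring
  simp_rw [h1]
  have i1 := (h.int_pow a S p 3 1).const_mul (4 * a p)
  have i2 := (h.int_pow a S p 2 2).const_mul (6 * a p ^ 2)
  have i3 := (h.int_pow a S p 1 3).const_mul (4 * a p ^ 3)
  have i4 := (h.int_pow a S p 0 4).const_mul (a p ^ 4)
  have i34 : Integrable (fun ω => 4 * a p ^ 3 * (Yf X a S ω ^ 1 * X p ω ^ 3) +
      a p ^ 4 * (Yf X a S ω ^ 0 * X p ω ^ 4)) μ := i3.add i4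
  have i234 : Integrable (fun ω => 6 * a p ^ 2 * (Yf X a S ω ^ 2 * X p ω ^ 2) +
      (4 * a p ^ 3 * (Yf X a S ω ^ 1 * X p ω ^ 3) +
      a p ^ 4 * (Yf X a S ω ^ 0 * X p ω ^ 4))) μ := i2.add i34
  have i1234 : Integrable (fun ω => 4 * a p * (Yf X a S ω ^ 3 * X p ω ^ 1) +
      (6 * a p ^ 2 * (Yf X a S ω ^ 2 * X p ω ^ 2) + (4 * a p ^ 3 * (Yf X a S ω ^ 1 * X p ω ^ 3) +
      a p ^ 4 * (Yf X a S ω ^ 0 * X p ω ^ 4)))) μ := i1.add i234
  rw [integral_add (h.int_pow a S p 4 0) i1234,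
    integral_add i1 i234, integral_add i2 i34, integral_add i3 i4,
    integral_const_mul, integral_const_mul, integral_const_mul, integral_const_mul,
    h.indep a hp 3 1, h.indep a hp 2 2, h.indep a hp 1 3]
  simp only [pow_one, pow_zero, one_mul, mul_one]
  rw [h.mean p, h.mean_Y a S]
  ring

theorem Cen.mom_X (h : Cen μ X C) (p : Nat.Primes) (j : ℕ) :
    ∫ ω, X p ω ^ (2 * j) ∂μ ≤ C ^ (2 * j) := by
  have h1 : ∀ ω, X p ω ^ (2 * j) ≤ C ^ (2 * j) := by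
    intro ω
    rw [pow_mul, pow_mul]
    refine pow_le_pow_left₀ (sq_nonneg _) ?_ j
    rw [← sq_abs]
    exact pow_le_pow_left₀ (abs_nonneg _) (h.bd p ω) 2
  have h2 := integral_mono (μ := μ) (by
    have := h.int_pow (fun _ => 0) ∅ p 0 (2 * j)
    simpa using this) (integrable_const _) h1
  simpa using h2

theorem Cen.moments (h : Cen μ X C) (a : Nat.Primes → ℝ) (S : Finset Nat.Primes) :
    ∫ ω, Yf X a S ω ^ 2 ∂μ ≤ C ^ 2 * ∑ p ∈ S, a p ^ 2 ∧
    ∫ ω, Yf X a S ω ^ 4 ∂μ ≤ 3 * C ^ 4 * (∑ p ∈ S, a p ^ 2) ^ 2 := by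
  classical
  induction S using Finset.induction_on with
  | empty => simp [Yf]
  | insert p S hp ih =>
    obtain ⟨h1, h2⟩ := ih
    have m2 := h.mom_X p 1
    have m4 := h.mom_X p 2
    have n2 : 0 ≤ ∫ ω, X p ω ^ 2 ∂μ := integral_nonneg fun _ => sq_nonneg _
    have ny : 0 ≤ ∫ ω, Yf X a S ω ^ 2 ∂μ := integral_nonneg fun _ => sq_nonneg _
    norm_num at m2 m4
    have hW : 0 ≤ ∑ p ∈ S, a p ^ 2 := sum_nonneg fun _ _ => sq_nonneg _
    set W := ∑ p ∈ S, a p ^ 2 with hWd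
    have ha : 0 ≤ a p ^ 2 := sq_nonneg _
    have hC : 0 < C ^ 2 := pow_pos h.pos 2
    rw [h.sq_insert a hp, h.four_insert a hp, sum_insert hp]
    constructor
    · nlinarith
    · have e1 : (∫ ω, Yf X a S ω ^ 2 ∂μ) * ∫ ω, X p ω ^ 2 ∂μ ≤ (C ^ 2 * W) * C ^ 2 :=
        mul_le_mul h1 m2 n2 (by positivity)
      have e2 : 6 * a p ^ 2 * ((∫ ω, Yf X a S ω ^ 2 ∂μ) * ∫ ω, X p ω ^ 2 ∂μ) ≤
          6 * a p ^ 2 * ((C ^ 2 * W) * C ^ 2) := mul_le_mul_of_nonneg_left e1 (by positivity)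
      have e3 : a p ^ 4 * ∫ ω, X p ω ^ 4 ∂μ ≤ a p ^ 4 * C ^ 4 :=
        mul_le_mul_of_nonneg_left m4 (by positivity)
      have e4 : 3 * C ^ 4 * (a p ^ 2 + W) ^ 2 = 3 * C ^ 4 * W ^ 2 +
          6 * a p ^ 2 * ((C ^ 2 * W) * C ^ 2) + 3 * (a p ^ 4 * C ^ 4) := by ring
      have e5 : 0 ≤ a p ^ 4 * C ^ 4 := by positivity
      rw [e4]
      linarith

theorem Cen.second (h : Cen μ X C) {v : ℝ} (a : Nat.Primes → ℝ) (S : Finset Nat.Primes)
    (hv : ∀ p ∈ S, a p ≠ 0 → v ≤ ∫ ω, X p ω ^ 2 ∂μ) :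
    v * ∑ p ∈ S, a p ^ 2 ≤ ∫ ω, Yf X a S ω ^ 2 ∂μ := by
  classical
  induction S using Finset.induction_on with
  | empty => simp [Yf]
  | insert p S hp ih =>
    have h1 := ih fun q hq => hv q (mem_insert_of_mem hq)
    rw [h.sq_insert a hp, sum_insert hp, mul_add]
    have h2 : v * a p ^ 2 ≤ a p ^ 2 * ∫ ω, X p ω ^ 2 ∂μ := by
      by_cases h0 : a p = 0
      · rw [h0]
        simp
      · have h3 := hv p (mem_insert_self p S) h0
        have h4 : 0 ≤ a p ^ 2 := sq_nonneg _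
        nlinarith
    linarith

end Pool.Agent.P8H9.RD
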