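import Pool.Agent.P8H9.RD.PZ

/-! Natural boundary for random Dirichlet series over the primes. -/

set_option autoImplicit false

open Filter Topology Finset MeasureTheory ProbabilityTheory

namespace Pool.Agent.P8H9.RD

theorem exp_tendsto (x : ℝ) :
    Tendsto (fun M : ℕ => ∑ m ∈ range M, x ^ m / (m.factorial : ℝ)) atTop (𝓝 (Real.exp x)) := by
  rw [Real.exp_eq_exp_ℝ]
  exact (NormedSpace.expSeries_div_hasSum_exp x).tendsto_sum_nat

/-- **divergence of the sum of the reciprocals of the primes**, in Taylor coefficients -/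
theorem diverge {R : ℝ} (hR : 3 / 2 < R) (S : Finset Nat.Primes) {K : ℝ}
    {G : ℕ → ℝ} (hG : ∀ m : ℕ, ∀ T : Finset Nat.Primes, Disjoint T S →
      ∑ p ∈ T, (Real.log (p : ℕ) ^ m / m.factorial * ((p : ℕ) : ℝ) ^ (-2 : ℝ)) ^ 2 ≤ G m)
    (h : ∀ m : ℕ, R ^ (2 * m) * G m ≤ K) : False := by
  have hR0 : 0 < R := by linarith
  set q : ℝ := 3 / (2 * R) with hq
  have hq0 : 0 < q := by positivity
  have hq1 : q < 1 := by
    rw [hq, div_lt_one (by positivity)]
    linarith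
  have hqR : q * R = 3 / 2 := by
    rw [hq]
    field_simp
  have hK : 0 ≤ K := by
    have h0 := h 0
    have h1 := hG 0 ∅ (disjoint_empty_left S)
    simp only [sum_empty] at h1
    simp only [mul_zero, pow_zero, one_mul] at h0
    linarith
  have hgeo : ∀ M : ℕ, ∑ m ∈ range M, q ^ m ≤ (1 - q)⁻¹ := fun M =>
    (summable_geometric_of_lt_one hq0.le hq1).sum_le_tsum (range M)
      (fun _ _ => pow_nonneg hq0.le _) |>.trans_eq (tsum_geometric_of_lt_one hq0.le hq1)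
  have hgeo0 : ∀ M : ℕ, 0 ≤ ∑ m ∈ range M, q ^ m := fun M =>
    sum_nonneg fun _ _ => pow_nonneg hq0.le _
  have hinv : 0 < (1 - q)⁻¹ := inv_pos.2 (by linarith)
  have key : ∀ T : Finset Nat.Primes, Disjoint T S →
      ∑ p ∈ T, 1 / ((p : ℕ) : ℝ) ≤ (1 - q)⁻¹ * ((1 - q)⁻¹ * K) := by
    intro T hT
    have h1 : Tendsto (fun M : ℕ => ∑ p ∈ T,
        (∑ m ∈ range M, (q * R * Real.log (p : ℕ)) ^ m / (m.factorial : ℝ)) ^ 2 *
        (((p : ℕ) : ℝ) ^ (-2 : ℝ)) ^ 2) atTop (𝓝 (∑ p ∈ T,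
        (Real.exp (q * R * Real.log (p : ℕ))) ^ 2 * (((p : ℕ) : ℝ) ^ (-2 : ℝ)) ^ 2)) :=
      tendsto_finsetSum _ fun p _ => ((exp_tendsto _).pow 2).mul_const _
    have h2 : ∑ p ∈ T, (Real.exp (q * R * Real.log (p : ℕ))) ^ 2 *
        (((p : ℕ) : ℝ) ^ (-2 : ℝ)) ^ 2 = ∑ p ∈ T, 1 / ((p : ℕ) : ℝ) := by
      refine sum_congr rfl fun p _ => ?_
      have hp : (0 : ℝ) < ((p : ℕ) : ℝ) := by exact_mod_cast p.2.pos
      rw [hqR]
      have e1 : Real.exp (3 / 2 * Real.log (p : ℕ)) = ((p : ℕ) : ℝ) ^ (3 / 2 : ℝ) := by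
        rw [Real.rpow_def_of_pos hp, mul_comm]
      rw [e1, ← mul_pow, ← Real.rpow_add hp, ← Real.rpow_natCast, ← Real.rpow_mul hp.le]
      norm_num
      exact Real.rpow_neg_one _
    rw [h2] at h1
    refine le_of_tendsto h1 (Eventually.of_forall fun M => ?_)
    have h3 : ∀ p ∈ T, (∑ m ∈ range M, (q * R * Real.log (p : ℕ)) ^ m / (m.factorial : ℝ)) ^ 2 *
        (((p : ℕ) : ℝ) ^ (-2 : ℝ)) ^ 2 ≤ (1 - q)⁻¹ * ∑ m ∈ range M, q ^ m * (R ^ (2 * m) *
          (Real.log (p : ℕ) ^ m / m.factorial * ((p : ℕ) : ℝ) ^ (-2 : ℝ)) ^ 2) := by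
      intro p _
      have e1 := sum_sq_le_sum_mul_sum_of_sq_le_mul (range M)
        (r := fun m => (q * R * Real.log (p : ℕ)) ^ m / (m.factorial : ℝ))
        (f := fun m => q ^ m)
        (g := fun m => q ^ m * ((R * Real.log (p : ℕ)) ^ m / (m.factorial : ℝ)) ^ 2)
        (fun m _ => by positivity) (fun m _ => by positivity) (fun m _ => by
          rw [mul_assoc q R, mul_pow]
          exact le_of_eq (by ring))
      have e2 : (∑ m ∈ range M, (q * R * Real.log (p : ℕ)) ^ m / (m.factorial : ℝ)) ^ 2 ≤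
          (1 - q)⁻¹ * ∑ m ∈ range M, q ^ m *
            ((R * Real.log (p : ℕ)) ^ m / (m.factorial : ℝ)) ^ 2 :=
        e1.trans (mul_le_mul_of_nonneg_right (hgeo M) (sum_nonneg fun _ _ => by positivity))
      have e3 := mul_le_mul_of_nonneg_right e2 (sq_nonneg (((p : ℕ) : ℝ) ^ (-2 : ℝ)))
      refine e3.trans_eq ?_
      rw [mul_assoc, sum_mul]
      congr 1
      refine sum_congr rfl fun m _ => ?_
      rw [mul_pow R, pow_mul R 2 m, ← pow_mul, mul_comm 2 m, pow_mul]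
      ring
    refine (sum_le_sum h3).trans ?_
    rw [← mul_sum, sum_comm]
    refine mul_le_mul_of_nonneg_left ?_ hinv.le
    have h4 : ∀ m ∈ range M, ∑ p ∈ T, q ^ m * (R ^ (2 * m) *
        (Real.log (p : ℕ) ^ m / m.factorial * ((p : ℕ) : ℝ) ^ (-2 : ℝ)) ^ 2) ≤ q ^ m * K := by
      intro m _
      rw [← mul_sum, ← mul_sum]
      refine mul_le_mul_of_nonneg_left ?_ (by positivity)
      exact (mul_le_mul_of_nonneg_left (hG m T hT) (by positivity)).trans (h m)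
    refine (sum_le_sum h4).trans ?_
    rw [← sum_mul]
    exact mul_le_mul_of_nonneg_right (hgeo M) hK
  have hns := Nat.Primes.not_summable_one_div
  apply hns
  classical
  have hs : Summable fun p : {p : Nat.Primes // p ∉ S} => 1 / ((p : Nat.Primes) : ℝ) := by
    refine summable_of_sum_le (c := (1 - q)⁻¹ * ((1 - q)⁻¹ * K)) (fun p => by positivity) fun u => ?_
    have := key (u.map (Function.Embedding.subtype _)) (by
      rw [Finset.disjoint_left]
      intro a ha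
      rw [Finset.mem_map] at ha
      obtain ⟨b, -, rfl⟩ := ha
      exact b.2)
    rw [sum_map] at this
    exact this
  exact (S.summable_compl_iff).1 hs

/-- the Taylor coefficients of `p ^ (-z)` at `z₀` up to sign -/
noncomputable def cf (z₀ : ℂ) (m : ℕ) (p : Nat.Primes) : ℂ :=
  ((Real.log (p : ℕ) ^ m / m.factorial : ℝ) : ℂ) * ((p : ℕ) : ℂ) ^ (-z₀)

theorem norm_cf {z₀ : ℂ} (hz : z₀.re = 2) (m : ℕ) (p : Nat.Primes) :
    ‖cf z₀ m p‖ = Real.log (p : ℕ) ^ m / m.factorial * ((p : ℕ) : ℝ) ^ (-2 : ℝ) := by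
  have hp : (1 : ℝ) ≤ ((p : ℕ) : ℝ) := by exact_mod_cast p.2.one_lt.le
  rw [cf, norm_mul, Complex.norm_natCast_cpow_of_pos p.2.pos, Complex.neg_re, hz,
    Complex.norm_real, Real.norm_of_nonneg (div_nonneg (pow_nonneg (Real.log_nonneg hp) _)
      (Nat.cast_nonneg _))]

theorem pow_log_le {R : ℝ} (hR : 0 ≤ R) (m : ℕ) (p : Nat.Primes) :
    R ^ m * (Real.log (p : ℕ) ^ m / m.factorial) ≤ ((p : ℕ) : ℝ) ^ R := by
  have hp : (1 : ℝ) ≤ ((p : ℕ) : ℝ) := by exact_mod_cast p.2.one_lt.le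
  have h1 := Real.pow_div_factorial_le_exp (x := R * Real.log (p : ℕ))
    (mul_nonneg hR (Real.log_nonneg hp)) m
  rw [mul_pow, mul_div_assoc] at h1
  refine h1.trans_eq ?_
  rw [Real.rpow_def_of_pos (by linarith), mul_comm]

theorem summable_cf {z₀ : ℂ} (hz : z₀.re = 2) (m : ℕ) : Summable fun p => ‖cf z₀ m p‖ := by
  have h1 : Summable fun p : Nat.Primes => 2 ^ m * ((p : ℕ) : ℝ) ^ (-(3 / 2) : ℝ) := by
    refine Summable.mul_left _ ?_
    exact (Real.summable_nat_rpow.2 (by norm_num)).comp_injective Nat.Primes.coe_nat_injective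
  refine h1.of_nonneg_of_le (fun _ => norm_nonneg _) fun p => ?_
  have hp : (0 : ℝ) < ((p : ℕ) : ℝ) := by exact_mod_cast p.2.pos
  rw [norm_cf hz]
  have h2 := pow_log_le (R := 1 / 2) (by norm_num) m p
  have h3 : Real.log (p : ℕ) ^ m / m.factorial ≤ 2 ^ m * ((p : ℕ) : ℝ) ^ (1 / 2 : ℝ) := by
    have e : (2 : ℝ) ^ m * ((1 / 2) ^ m * (Real.log (p : ℕ) ^ m / m.factorial)) =
        Real.log (p : ℕ) ^ m / m.factorial := by
      rw [← mul_assoc, ← mul_pow]
      norm_num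
    rw [← e]
    exact mul_le_mul_of_nonneg_left h2 (by positivity)
  have h4 : ((p : ℕ) : ℝ) ^ (-(3 / 2) : ℝ) = ((p : ℕ) : ℝ) ^ (1 / 2 : ℝ) * ((p : ℕ) : ℝ) ^ (-2 : ℝ) := by
    rw [← Real.rpow_add hp]
    norm_num
  rw [h4, ← mul_assoc]
  exact mul_le_mul_of_nonneg_right h3 (by positivity)

/-- the series at `m` -/
noncomputable def Sm {Ω : Type*} (X : Nat.Primes → Ω → ℝ) (z₀ : ℂ) (m : ℕ) (ω : Ω) : ℂ :=
  ∑' p, (X p ω : ℂ) * cf z₀ m p

/-- the event at level `K` -/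
def EvK {Ω : Type*} (X : Nat.Primes → Ω → ℝ) (z₀ : ℂ) (R : ℝ) (g : ℕ → ℂ) (K : ℕ) : Set Ω :=
  {ω | ∀ m : ℕ, ‖Sm X z₀ m ω + g m‖ * R ^ m ≤ K}

/-- the event that the Taylor coefficients are small -/
def Ev {Ω : Type*} (X : Nat.Primes → Ω → ℝ) (z₀ : ℂ) (R : ℝ) (g : ℕ → ℂ) : Set Ω :=
  ⋃ K : ℕ, EvK X z₀ R g K

open scoped Classical in
/-- removing finitely many primes -/
noncomputable def cut {Ω : Type*} (S : Finset Nat.Primes) (X : Nat.Primes → Ω → ℝ)
    (p : Nat.Primes) (ω : Ω) : ℝ := if p ∈ S then 0 else X p ω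

theorem summable_term {Ω : Type*} {X : Nat.Primes → Ω → ℝ} {C : ℝ} {ω : Ω}
    (hX : ∀ p, |X p ω| ≤ C) {z₀ : ℂ} (hz : z₀.re = 2) (m : ℕ) :
    Summable fun p => (X p ω : ℂ) * cf z₀ m p := by
  refine Summable.of_norm_bounded ((summable_cf hz m).mul_left C) fun p => ?_
  rw [norm_mul, Complex.norm_real]
  exact mul_le_mul_of_nonneg_right (hX p) (norm_nonneg _)

theorem cut_bd {Ω : Type*} {X : Nat.Primes → Ω → ℝ} {C : ℝ} {ω : Ω} (hC : 0 ≤ C)
    (hX : ∀ p, |X p ω| ≤ C) (S : Finset Nat.Primes) (p : Nat.Primes) : |cut S X p ω| ≤ C := by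
  unfold cut
  split_ifs
  · rw [abs_zero]
    exact hC
  · exact hX p

theorem Sm_cut {Ω : Type*} {X : Nat.Primes → Ω → ℝ} {C : ℝ} {ω : Ω} (hC : 0 ≤ C)
    (hX : ∀ p, |X p ω| ≤ C) {z₀ : ℂ} (hz : z₀.re = 2) (S : Finset Nat.Primes) (m : ℕ) :
    Sm X z₀ m ω = Sm (cut S X) z₀ m ω + ∑ p ∈ S, (X p ω : ℂ) * cf z₀ m p := by
  classical
  unfold Sm
  have h1 : HasSum (fun p => if p ∈ S then (X p ω : ℂ) * cf z₀ m p else 0)
      (∑ p ∈ S, (X p ω : ℂ) * cf z₀ m p) := by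
    have h0 : HasSum (fun p => if p ∈ S then (X p ω : ℂ) * cf z₀ m p else 0)
        (∑ p ∈ S, if p ∈ S then (X p ω : ℂ) * cf z₀ m p else 0) :=
      hasSum_sum_of_ne_finset_zero (fun p hp => if_neg hp)
    rwa [sum_congr rfl fun p hp => if_pos hp] at h0
  have h2 := (summable_term (X := cut S X) (cut_bd hC hX S) hz m).hasSum.add h1
  rw [← h2.tsum_eq]
  refine tsum_congr fun p => ?_
  unfold cut
  split_ifs
  · simp
  · simp

theorem sum_S_bd {Ω : Type*} {X : Nat.Primes → Ω → ℝ} {C : ℝ} {ω : Ω} (hC : 0 ≤ C)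
    (hX : ∀ p, |X p ω| ≤ C) {z₀ : ℂ} (hz : z₀.re = 2) {R : ℝ} (hR : 0 ≤ R)
    (S : Finset Nat.Primes) (m : ℕ) :
    ‖∑ p ∈ S, (X p ω : ℂ) * cf z₀ m p‖ * R ^ m ≤ ∑ p ∈ S, C * ((p : ℕ) : ℝ) ^ R := by
  refine (mul_le_mul_of_nonneg_right (norm_sum_le _ _) (pow_nonneg hR m)).trans ?_
  rw [sum_mul]
  refine sum_le_sum fun p _ => ?_
  have hp : (1 : ℝ) ≤ ((p : ℕ) : ℝ) := by exact_mod_cast p.2.one_lt.le
  rw [norm_mul, Complex.norm_real, norm_cf hz, mul_assoc]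
  refine mul_le_mul (hX p) ?_ ?_ hC
  · have h1 := pow_log_le hR m p
    have h2 : ((p : ℕ) : ℝ) ^ (-2 : ℝ) ≤ 1 := Real.rpow_le_one_of_one_le_of_nonpos hp (by norm_num)
    have h3 : 0 ≤ R ^ m * (Real.log (p : ℕ) ^ m / m.factorial) :=
      mul_nonneg (pow_nonneg hR m) (div_nonneg (pow_nonneg (Real.log_nonneg hp) _)
        (Nat.cast_nonneg _))
    calc Real.log (p : ℕ) ^ m / m.factorial * ((p : ℕ) : ℝ) ^ (-2 : ℝ) * R ^ m =
        (R ^ m * (Real.log (p : ℕ) ^ m / m.factorial)) * ((p : ℕ) : ℝ) ^ (-2 : ℝ) := by ring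
      _ ≤ (R ^ m * (Real.log (p : ℕ) ^ m / m.factorial)) * 1 := mul_le_mul_of_nonneg_left h2 h3
      _ ≤ ((p : ℕ) : ℝ) ^ R := by rw [mul_one]; exact h1
  · exact mul_nonneg (mul_nonneg (div_nonneg (pow_nonneg (Real.log_nonneg hp) _)
      (Nat.cast_nonneg _)) (by positivity)) (pow_nonneg hR m)

theorem Ev_cut {Ω : Type*} {X : Nat.Primes → Ω → ℝ} {C : ℝ} (hC : 0 ≤ C)
    (hX : ∀ p ω, |X p ω| ≤ C) {z₀ : ℂ} (hz : z₀.re = 2) {R : ℝ} (hR : 0 ≤ R) (g : ℕ → ℂ)
    (S : Finset Nat.Primes) : Ev X z₀ R g = Ev (cut S X) z₀ R g := by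
  obtain ⟨D, hD⟩ := exists_nat_ge (∑ p ∈ S, C * ((p : ℕ) : ℝ) ^ R)
  ext ω
  unfold Ev EvK
  rw [Set.mem_iUnion, Set.mem_iUnion]
  have hS := fun m => (sum_S_bd hC (fun p => hX p ω) hz hR S m).trans hD
  constructor
  · rintro ⟨K, hK⟩
    refine ⟨K + D, fun m => ?_⟩
    have h1 := hK m
    rw [Sm_cut hC (fun p => hX p ω) hz S m] at h1
    have h2 : Sm (cut S X) z₀ m ω + g m = (Sm (cut S X) z₀ m ω +
        ∑ p ∈ S, (X p ω : ℂ) * cf z₀ m p + g m) - ∑ p ∈ S, (X p ω : ℂ) * cf z₀ m p := by ring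
    rw [h2]
    have h3 := mul_le_mul_of_nonneg_right (norm_sub_le (Sm (cut S X) z₀ m ω +
        ∑ p ∈ S, (X p ω : ℂ) * cf z₀ m p + g m) (∑ p ∈ S, (X p ω : ℂ) * cf z₀ m p))
        (pow_nonneg hR m)
    push_cast
    have := hS m
    linarith
  · rintro ⟨K, hK⟩
    refine ⟨K + D, fun m => ?_⟩
    have h1 : ‖Sm (cut S X) z₀ m ω + g m‖ * R ^ m ≤ K := hK m
    rw [Sm_cut hC (fun p => hX p ω) hz S m]
    have h2 : Sm (cut S X) z₀ m ω + ∑ p ∈ S, (X p ω : ℂ) * cf z₀ m p + g m =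
      (Sm (cut S X) z₀ m ω + g m) + ∑ p ∈ S, (X p ω : ℂ) * cf z₀ m p := by ring
    rw [h2]
    have h3 := mul_le_mul_of_nonneg_right (norm_add_le (Sm (cut S X) z₀ m ω + g m)
        (∑ p ∈ S, (X p ω : ℂ) * cf z₀ m p)) (pow_nonneg hR m)
    push_cast
    have := hS m
    linarith

theorem meas_Sm {Ω : Type*} [MeasurableSpace Ω] {X : Nat.Primes → Ω → ℝ} {C : ℝ}
    (hm : ∀ p, Measurable (X p)) (hX : ∀ p ω, |X p ω| ≤ C) {z₀ : ℂ} (hz : z₀.re = 2) (m : ℕ) :
    Measurable (Sm X z₀ m) := by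
  refine measurable_of_tendsto_metrizable
    (f := fun N ω => ∑ p ∈ PN N, (X p ω : ℂ) * cf z₀ m p) (fun N => ?_)
    (tendsto_pi_nhds.2 fun ω => (summable_term (fun p => hX p ω) hz m).hasSum.comp tendsto_PN)
  exact Finset.measurable_fun_sum _ fun p _ => (Complex.measurable_ofReal.comp (hm p)).mul_const _

theorem meas_EvK {Ω : Type*} [MeasurableSpace Ω] {X : Nat.Primes → Ω → ℝ} {C : ℝ}
    (hm : ∀ p, Measurable (X p)) (hX : ∀ p ω, |X p ω| ≤ C) {z₀ : ℂ} (hz : z₀.re = 2) (R : ℝ)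
    (g : ℕ → ℂ) (K : ℕ) : MeasurableSet (EvK X z₀ R g K) := by
  unfold EvK
  rw [Set.ofPred_forall]
  refine MeasurableSet.iInter fun m => ?_
  exact measurableSet_le ((((meas_Sm hm hX hz m).add_const (g m)).norm).mul_const _)
    measurable_const

theorem meas_Ev {Ω : Type*} [MeasurableSpace Ω] {X : Nat.Primes → Ω → ℝ} {C : ℝ}
    (hm : ∀ p, Measurable (X p)) (hX : ∀ p ω, |X p ω| ≤ C) {z₀ : ℂ} (hz : z₀.re = 2) (R : ℝ)
    (g : ℕ → ℂ) : MeasurableSet (Ev X z₀ R g) :=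
  MeasurableSet.iUnion fun K => meas_EvK hm hX hz R g K

theorem zero_one {Ω : Type*} [MeasurableSpace Ω] {μ : Measure Ω} [IsProbabilityMeasure μ]
    {X : Nat.Primes → Ω → ℝ} {C : ℝ} (h : Cen μ X C) {z₀ : ℂ} (hz : z₀.re = 2) {R : ℝ}
    (hR : 0 ≤ R) (g : ℕ → ℂ) : μ (Ev X z₀ R g) = 0 ∨ μ (Ev X z₀ R g) = 1 := by
  classical
  refine measure_zero_or_one_of_measurableSet_limsup
    (s := fun p => MeasurableSpace.comap (X p) inferInstance) (p := fun S : Set Nat.Primes => S.Finite)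
    (f := cofinite) (ns := fun S : Finset Nat.Primes => (S : Set Nat.Primes))
    (fun p => (h.meas p).comap_le) h.ind.iIndep (fun S hS => ?_) ?_ (fun S => S.finite_toSet)
    (fun p => ⟨{p}, by simp⟩) ?_
  · exact hS.compl_mem_cofinite
  · intro S T
    exact ⟨S ∪ T, by simp, by simp⟩
  · rw [hasBasis_cofinite.limsup_eq_iInf_iSup, MeasurableSpace.measurableSet_iInf]
    intro S
    rw [MeasurableSpace.measurableSet_iInf]
    intro hS
    have e : Ev X z₀ R g = Ev (cut hS.toFinset X) z₀ R g := Ev_cut h.pos.le h.bd hz hR g _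
    rw [e]
    refine @meas_Ev Ω (⨆ a ∈ Sᶜ, MeasurableSpace.comap (X a) inferInstance)
      (cut hS.toFinset X) C (fun p => ?_) (fun p ω => cut_bd h.pos.le (fun p => h.bd p ω) _ p) z₀ hz R g
    by_cases hp : p ∈ S
    · have : cut hS.toFinset X p = fun _ => 0 := by
        funext ω
        unfold cut
        rw [if_pos (hS.mem_toFinset.2 hp)]
      rw [this]
      exact @measurable_const _ _ _ _ _
    · have : cut hS.toFinset X p = X p := by
        funext ω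
        unfold cut
        rw [if_neg (fun hc => hp (hS.mem_toFinset.1 hc))]
      rw [this]
      have h1 : MeasurableSpace.comap (X p) inferInstance ≤
          ⨆ a ∈ Sᶜ, MeasurableSpace.comap (X a) inferInstance :=
        le_iSup₂ (f := fun a (_ : a ∈ Sᶜ) => MeasurableSpace.comap (X a) inferInstance) p hp
      exact measurable_iff_comap_le.2 h1

theorem summable_rc {z₀ : ℂ} (hz : z₀.re = 2) (m : ℕ) (S : Finset Nat.Primes) (f : ℂ → ℝ)
    (hf : ∀ z, |f z| ≤ ‖z‖) [DecidablePred (· ∈ S)] :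
    Summable fun p => |if p ∈ S then 0 else f (cf z₀ m p)| := by
  refine (summable_cf hz m).of_nonneg_of_le (fun _ => abs_nonneg _) fun p => ?_
  split_ifs
  · rw [abs_zero]
    exact norm_nonneg _
  · exact hf _

/-- **the event has probability zero** -/
theorem Ev_zero {Ω : Type*} [MeasurableSpace Ω] {μ : Measure Ω} [IsProbabilityMeasure μ]
    {X : Nat.Primes → Ω → ℝ} {C : ℝ} (h : Cen μ X C) {v : ℝ} (hv0 : 0 < v)
    {S : Finset Nat.Primes} (hv : ∀ p ∉ S, v ≤ ∫ ω, X p ω ^ 2 ∂μ) {z₀ : ℂ} (hz : z₀.re = 2)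
    {R : ℝ} (hR : 3 / 2 < R) (g : ℕ → ℂ) : μ (Ev X z₀ R g) = 0 := by
  classical
  have hR0 : 0 < R := by linarith
  have hC := h.pos
  rcases zero_one h hz hR0.le g with h0 | h0
  · exact h0
  exfalso
  rw [Ev_cut h.pos.le h.bd hz hR0.le g S] at h0
  -- a level of large measure
  have hcm : ∀ p, Measurable (cut S X p) := by
    intro p
    by_cases hp : p ∈ S
    · have : cut S X p = fun _ => 0 := by
        funext ω
        unfold cut
        rw [if_pos hp]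
      rw [this]
      exact measurable_const
    · have : cut S X p = X p := by
        funext ω
        unfold cut
        rw [if_neg hp]
      rw [this]
      exact h.meas p
  have hcb : ∀ p ω, |cut S X p ω| ≤ C := fun p ω => cut_bd h.pos.le (fun p => h.bd p ω) S p
  have hmono : Monotone (EvK (cut S X) z₀ R g) := by
    intro K L hKL ω hω m
    exact (hω m).trans (by exact_mod_cast hKL)
  have hlim := tendsto_measure_iUnion_atTop (μ := μ) hmono
  change Tendsto _ atTop (𝓝 (μ (Ev (cut S X) z₀ R g))) at hlim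
  rw [h0] at hlim
  set δ : ℝ := v ^ 2 / (96 * C ^ 4) with hδ
  have hδ0 : 0 < δ := by positivity
  have hlim2 : Tendsto (fun K => μ.real (EvK (cut S X) z₀ R g K)) atTop (𝓝 1) := by
    have := (ENNReal.tendsto_toReal ENNReal.one_ne_top).comp hlim
    rw [ENNReal.toReal_one] at this
    exact this
  obtain ⟨K, hK⟩ := ((tendsto_order.1 hlim2).1 (1 - δ) (by linarith)).exists
  have hmE : MeasurableSet (EvK (cut S X) z₀ R g K) := meas_EvK hcm hcb hz R g K
  -- the key consequence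
  have hkey : ∀ m : ℕ, ∀ f : ℂ → ℝ, (∀ z, |f z| ≤ ‖z‖) → (∀ z w, f (z + w) = f z + f w) →
      (∀ (x : ℝ) (z : ℂ), f (x * z) = x * f z) → Continuous f →
      v * (∑' p, (if p ∈ S then 0 else f (cf z₀ m p)) ^ 2) / 2 * R ^ (2 * m) ≤ (K : ℝ) ^ 2 := by
    intro m f hf hadd hmul hcont
    set a : Nat.Primes → ℝ := fun p => if p ∈ S then 0 else f (cf z₀ m p) with ha
    have has : Summable fun p => |a p| := summable_rc hz m S f hf
    have hsq := summable_sq has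
    rcases (tsum_nonneg fun p => sq_nonneg (a p) : 0 ≤ ∑' p, a p ^ 2).eq_or_lt with hW | hW
    · rw [← hW]
      simp
    have hpz := h.pz hv0 has (fun p hp => hv p fun hpS => hp (by rw [ha]; simp [hpS])) hW (f (g m))
    set A : Set Ω := {ω | v * (∑' p, a p ^ 2) / 2 ≤ (∑' p, a p * X p ω + f (g m)) ^ 2} with hA
    have hex : (A ∩ EvK (cut S X) z₀ R g K).Nonempty := by
      by_contra hcon
      rw [Set.not_nonempty_iff_eq_empty, ← Set.disjoint_iff_inter_eq_empty] at hcon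
      have e1 := measureReal_union (μ := μ) hcon hmE
      have e2 : μ.real (A ∪ EvK (cut S X) z₀ R g K) ≤ 1 := measureReal_le_one
      linarith
    obtain ⟨ω, hω1, hω2⟩ := hex
    have h1 : v * (∑' p, a p ^ 2) / 2 ≤ (∑' p, a p * X p ω + f (g m)) ^ 2 := hω1
    have h2 : ‖Sm (cut S X) z₀ m ω + g m‖ * R ^ m ≤ K := hω2 m
    have h3 : ∑' p, a p * X p ω = f (Sm (cut S X) z₀ m ω) := by
      have hsum := (summable_term (fun p => hcb p ω) hz m).hasSum
      have h4 : HasSum (fun p => f ((cut S X p ω : ℂ) * cf z₀ m p)) (f (Sm (cut S X) z₀ m ω)) :=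
        hsum.map (AddMonoidHom.mk' f hadd) hcont
      rw [← h4.tsum_eq]
      refine tsum_congr fun p => ?_
      rw [hmul, ha]
      unfold cut
      dsimp only
      split_ifs
      · simp
      · ring
    rw [h3, ← hadd] at h1
    have h5 : (f (Sm (cut S X) z₀ m ω + g m)) ^ 2 ≤ ‖Sm (cut S X) z₀ m ω + g m‖ ^ 2 := by
      rw [← sq_abs]
      exact pow_le_pow_left₀ (abs_nonneg _) (hf _) 2
    have h6 : (‖Sm (cut S X) z₀ m ω + g m‖ * R ^ m) ^ 2 ≤ (K : ℝ) ^ 2 :=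
      pow_le_pow_left₀ (by positivity) h2 2
    calc v * (∑' p, a p ^ 2) / 2 * R ^ (2 * m) ≤ ‖Sm (cut S X) z₀ m ω + g m‖ ^ 2 * R ^ (2 * m) :=
          mul_le_mul_of_nonneg_right (h1.trans h5) (by positivity)
      _ = (‖Sm (cut S X) z₀ m ω + g m‖ * R ^ m) ^ 2 := by rw [mul_pow, ← pow_mul, mul_comm m 2]
      _ ≤ (K : ℝ) ^ 2 := h6
  have hre : ∀ z : ℂ, |Complex.re z| ≤ ‖z‖ := Complex.abs_re_le_norm
  have him : ∀ z : ℂ, |Complex.im z| ≤ ‖z‖ := Complex.abs_im_le_norm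
  refine diverge hR S (K := 4 * (K : ℝ) ^ 2 / v) (G := fun m =>
    ∑' p, (if p ∈ S then 0 else (cf z₀ m p).re) ^ 2 +
    ∑' p, (if p ∈ S then 0 else (cf z₀ m p).im) ^ 2) (fun m T hT => ?_) fun m => ?_
  · have s1 := summable_sq (summable_rc hz m S Complex.re hre)
    have s2 := summable_sq (summable_rc hz m S Complex.im him)
    rw [← s1.tsum_add s2]
    have e : ∑ p ∈ T, (Real.log (p : ℕ) ^ m / m.factorial * ((p : ℕ) : ℝ) ^ (-2 : ℝ)) ^ 2 =
        ∑ p ∈ T, ((if p ∈ S then 0 else (cf z₀ m p).re) ^ 2 +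
          (if p ∈ S then 0 else (cf z₀ m p).im) ^ 2) := by
      refine sum_congr rfl fun p hp => ?_
      have hpS : p ∉ S := fun hc => (Finset.disjoint_left.1 hT) hp hc
      rw [if_neg hpS, if_neg hpS, ← norm_cf hz m p, ← Complex.normSq_eq_norm_sq,
        Complex.normSq_apply]
      ring
    rw [e]
    exact (s1.add s2).sum_le_tsum T fun p _ => add_nonneg (sq_nonneg _) (sq_nonneg _)
  · have k1 := hkey m Complex.re hre Complex.add_re (fun x z => by simp) Complex.continuous_re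
    have k2 := hkey m Complex.im him Complex.add_im (fun x z => by simp) Complex.continuous_im
    rw [le_div_iff₀ hv0]
    linarith

end Pool.Agent.P8H9.RD
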