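import Pool.Agent.P8H9.RD.NB

/-! The random series cannot be continued beyond any point of the line `Re z = 1/2`. -/

set_option autoImplicit false

open Filter Topology Finset MeasureTheory ProbabilityTheory

namespace Pool.Agent.P8H9.RD

theorem logMul_iter (x : Nat.Primes → ℝ) (m : ℕ) :
    LSeries.logMul^[m] (seq x) = seq fun p => Real.log (p : ℕ) ^ m * x p := by
  induction m with
  | zero => simp
  | succ m ih =>
    rw [Function.iterate_succ_apply', ih]
    funext n
    unfold LSeries.logMul seq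
    split_ifs with hn
    · rw [← Complex.natCast_log]
      push_cast
      ring
    · rw [mul_zero]

theorem iter_series {x : Nat.Primes → ℝ} {C : ℝ} (hx : ∀ p, |x p| ≤ C) {z₀ : ℂ} (hz : z₀.re = 2)
    (m : ℕ) : iteratedDeriv m (LSeries (seq x)) z₀ =
      (-1) ^ m * (m.factorial * ∑' p, (x p : ℂ) * cf z₀ m p) := by
  have h1 : LSeries.abscissaOfAbsConv (seq x) < z₀.re := by
    have h2 : LSeriesSummable (seq x) ((3 / 2 : ℝ) : ℂ) := seq_summable hx (by
      rw [Complex.ofReal_re]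
      norm_num)
    refine h2.abscissaOfAbsConv_le.trans_lt ?_
    rw [Complex.ofReal_re, hz]
    exact_mod_cast (by norm_num : (3 / 2 : ℝ) < 2)
  have h3 : (m.factorial : ℂ) * ∑' p, (x p : ℂ) * cf z₀ m p =
      ∑' p, (m.factorial : ℂ) * ((x p : ℂ) * cf z₀ m p) := tsum_mul_left.symm
  rw [LSeries_iteratedDeriv m h1, logMul_iter, seq_LSeries, h3]
  congr 1
  refine tsum_congr fun p => ?_
  unfold cf
  have hf : (m.factorial : ℂ) ≠ 0 := by exact_mod_cast m.factorial_ne_zero
  push_cast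
  field_simp

/-- **the event that the series continues is null** -/
theorem no_cont {Ω : Type*} [MeasurableSpace Ω] {μ : Measure Ω} [IsProbabilityMeasure μ]
    {X : Nat.Primes → Ω → ℝ} {C : ℝ} (h : Cen μ X C) {v : ℝ} (hv0 : 0 < v)
    {S : Finset Nat.Primes} (hv : ∀ p ∉ S, v ≤ ∫ ω, X p ω ^ 2 ∂μ) (M : ℂ → ℂ) {z₀ : ℂ}
    (hz : z₀.re = 2) {R : ℝ} (hR : 3 / 2 < R) :
    ∀ᵐ ω ∂μ, ¬ ∃ F : ℂ → ℂ, DifferentiableOn ℂ F (Metric.ball z₀ R) ∧
      ∀ᶠ z in 𝓝 z₀, F z = ∑' p : Nat.Primes, (X p ω : ℂ) * ((p : ℕ) : ℂ) ^ (-z) + M z := by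
  set R' : ℝ := (3 / 2 + R) / 2 with hR'
  have hR1 : 3 / 2 < R' := by rw [hR']; linarith
  have hR2 : R' < R := by rw [hR']; linarith
  have hR0 : 0 < R' := by linarith
  set g : ℕ → ℂ := fun m => (-1) ^ m * iteratedDeriv m M z₀ / m.factorial with hg
  have h0 := h.pos
  have hnull := Ev_zero h hv0 hv hz hR1 g
  rw [← compl_mem_ae_iff] at hnull
  filter_upwards [hnull] with ω hω
  rintro ⟨F, hF, hFe⟩
  apply hω
  have hb : ∀ p, |X p ω| ≤ C := fun p => h.bd p ω
  have hball : Metric.closedBall z₀ R' ⊆ Metric.ball z₀ R := Metric.closedBall_subset_ball hR2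
  have hFb : DiffContOnCl ℂ F (Metric.ball z₀ R') :=
    (hF.mono hball).diffContOnCl_ball subset_rfl
  obtain ⟨B, hB⟩ := (isCompact_closedBall z₀ R').exists_bound_of_continuousOn
    (hF.mono hball).continuousOn
  have hder : ∀ m : ℕ, ‖iteratedDeriv m F z₀‖ ≤ m.factorial * B / R' ^ m := fun m =>
    Complex.norm_iteratedDeriv_le_of_forall_mem_sphere_norm_le m hR0 hFb
      fun z hz => hB z (Metric.sphere_subset_closedBall hz)
  -- the expansion
  set L : ℂ → ℂ := LSeries (seq fun p => X p ω) with hL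
  have hLe : ∀ᶠ z in 𝓝 z₀, F z = L z + M z := by
    filter_upwards [hFe] with z hz
    rw [hz, hL, seq_LSeries]
  have hLd : AnalyticAt ℂ L z₀ := by
    have hopen : IsOpen {z : ℂ | 1 < z.re} := isOpen_lt continuous_const Complex.continuous_re
    have hz0 : z₀ ∈ {z : ℂ | 1 < z.re} := by
      change 1 < z₀.re
      rw [hz]
      norm_num
    have hd : DifferentiableOn ℂ L {z : ℂ | 1 < z.re} := by
      intro z hz'
      have hz1 : 1 < z.re := hz'
      refine (LSeries_hasDerivAt ?_).differentiableAt.differentiableWithinAt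
      have h2 : LSeriesSummable (seq fun p => X p ω) (((1 + z.re) / 2 : ℝ) : ℂ) :=
        seq_summable hb (by
          rw [Complex.ofReal_re]
          linarith)
      refine h2.abscissaOfAbsConv_le.trans_lt ?_
      rw [Complex.ofReal_re]
      exact_mod_cast (by linarith : (1 + z.re) / 2 < z.re)
    exact hd.analyticAt (hopen.mem_nhds hz0)
  have hFa : AnalyticAt ℂ F z₀ := hF.analyticAt (Metric.ball_mem_nhds z₀ (by linarith))
  have hMe : M =ᶠ[𝓝 z₀] fun z => F z - L z := by
    filter_upwards [hLe] with z hz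
    rw [hz]
    ring
  have hiter : ∀ m : ℕ, iteratedDeriv m F z₀ = iteratedDeriv m L z₀ + iteratedDeriv m M z₀ := by
    intro m
    rw [hMe.iteratedDeriv_eq m]
    have h1 : iteratedDeriv m (fun z => F z - L z) z₀ =
        iteratedDeriv m F z₀ - iteratedDeriv m L z₀ :=
      iteratedDeriv_fun_sub (hFa.contDiffAt (n := m)) (hLd.contDiffAt (n := m))
    rw [h1]
    ring
  obtain ⟨K, hK⟩ := exists_nat_ge B
  refine Set.mem_iUnion.2 ⟨K, fun m => ?_⟩
  have hf : (m.factorial : ℂ) ≠ 0 := by exact_mod_cast m.factorial_ne_zero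
  have hf' : (0 : ℝ) < m.factorial := by exact_mod_cast m.factorial_pos
  have h1 : Sm X z₀ m ω + g m = (-1) ^ m * iteratedDeriv m F z₀ / m.factorial := by
    rw [hiter m, hL, iter_series hb hz m, hg]
    unfold Sm
    have e : ((-1 : ℂ) ^ m) * ((-1) ^ m) = 1 := by
      rw [← mul_pow]
      norm_num
    rw [mul_add, add_div, ← mul_assoc, e, one_mul]
    congr 1
    field_simp
  rw [h1, norm_div, norm_mul, norm_pow, norm_neg, norm_one, one_pow, one_mul, Complex.norm_natCast]
  have h2 := hder m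
  rw [le_div_iff₀ (pow_pos hR0 m)] at h2
  rw [div_mul_eq_mul_div, div_le_iff₀ hf']
  refine h2.trans ?_
  rw [mul_comm]
  exact mul_le_mul_of_nonneg_right hK hf'.le

end Pool.Agent.P8H9.RD
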