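import Pool.Agent.P8H9.RD.Moment

/-! A sum of independent variables is not small with positive probability. -/

set_option autoImplicit false

open Filter Topology Finset MeasureTheory ProbabilityTheory

namespace Pool.Agent.P8H9.RD

theorem tendsto_PN : Tendsto PN atTop atTop := by
  refine tendsto_atTop_finset_of_monotone (fun m n hmn p hp => ?_) fun p => ⟨p, mem_PN.2 le_rfl⟩
  exact mem_PN.2 ((mem_PN.1 hp).trans hmn)

variable {Ω : Type*} [MeasurableSpace Ω] {μ : Measure Ω} [IsProbabilityMeasure μ]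
  {X : Nat.Primes → Ω → ℝ} {C : ℝ}

omit [IsProbabilityMeasure μ] in
theorem Cen.summable (h : Cen μ X C) {a : Nat.Primes → ℝ} (ha : Summable fun p => |a p|) (ω : Ω) :
    Summable fun p => a p * X p ω := by
  refine Summable.of_norm_bounded (ha.mul_right C) fun p => ?_
  rw [Real.norm_eq_abs, abs_mul]
  exact mul_le_mul_of_nonneg_left (h.bd p ω) (abs_nonneg _)

omit [IsProbabilityMeasure μ] in
theorem Cen.lim (h : Cen μ X C) {a : Nat.Primes → ℝ} (ha : Summable fun p => |a p|) (ω : Ω) :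
    Tendsto (fun N => Yf X a (PN N) ω) atTop (𝓝 (∑' p, a p * X p ω)) :=
  (h.summable ha ω).hasSum.comp tendsto_PN

omit [IsProbabilityMeasure μ] in
theorem Cen.meas_inf (h : Cen μ X C) {a : Nat.Primes → ℝ} (ha : Summable fun p => |a p|) :
    Measurable fun ω => ∑' p, a p * X p ω :=
  measurable_of_tendsto_metrizable (fun N => h.meas_Y a (PN N))
    (tendsto_pi_nhds.2 fun ω => h.lim ha ω)

omit [IsProbabilityMeasure μ] in
theorem Cen.bd_unif (h : Cen μ X C) {a : Nat.Primes → ℝ} (ha : Summable fun p => |a p|)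
    (S : Finset Nat.Primes) (ω : Ω) : |Yf X a S ω| ≤ C * ∑' p, |a p| :=
  (h.bd_Y a S ω).trans (mul_le_mul_of_nonneg_left
    (ha.sum_le_tsum S fun _ _ => abs_nonneg _) h.pos.le)

omit [IsProbabilityMeasure μ] in
theorem Cen.bd_inf (h : Cen μ X C) {a : Nat.Primes → ℝ} (ha : Summable fun p => |a p|) (ω : Ω) :
    |∑' p, a p * X p ω| ≤ C * ∑' p, |a p| :=
  le_of_tendsto (h.lim ha ω).abs (Eventually.of_forall fun N => h.bd_unif ha (PN N) ω)

theorem Cen.lim_int (h : Cen μ X C) {a : Nat.Primes → ℝ} (ha : Summable fun p => |a p|) (j : ℕ) :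
    Tendsto (fun N => ∫ ω, Yf X a (PN N) ω ^ j ∂μ) atTop
      (𝓝 (∫ ω, (∑' p, a p * X p ω) ^ j ∂μ)) := by
  refine tendsto_integral_of_dominated_convergence (fun _ => (C * ∑' p, |a p|) ^ j)
    (fun N => ((h.meas_Y a (PN N)).pow_const j).aestronglyMeasurable) (integrable_const _)
    (fun N => Eventually.of_forall fun ω => ?_)
    (Eventually.of_forall fun ω => (h.lim ha ω).pow j)
  rw [Real.norm_eq_abs, abs_pow]
  exact pow_le_pow_left₀ (abs_nonneg _) (h.bd_unif ha (PN N) ω) j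

theorem summable_sq {a : Nat.Primes → ℝ} (ha : Summable fun p => |a p|) :
    Summable fun p => a p ^ 2 := by
  have h1 : Summable fun p => ‖a p * a p‖ := by
    refine (ha.mul_right (∑' p, |a p|)).of_nonneg_of_le (fun _ => norm_nonneg _) fun p => ?_
    rw [norm_mul, Real.norm_eq_abs]
    exact mul_le_mul_of_nonneg_left (ha.le_tsum p fun _ _ => abs_nonneg _) (abs_nonneg _)
  refine h1.congr fun p => ?_
  rw [Real.norm_eq_abs, ← sq, abs_of_nonneg (sq_nonneg _)]

/-- **the sum is not small, even after a translation** -/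
theorem Cen.pz (h : Cen μ X C) {v : ℝ} (hv0 : 0 < v) {a : Nat.Primes → ℝ}
    (ha : Summable fun p => |a p|) (hv : ∀ p, a p ≠ 0 → v ≤ ∫ ω, X p ω ^ 2 ∂μ)
    (hW : 0 < ∑' p, a p ^ 2) (t : ℝ) :
    v ^ 2 / (96 * C ^ 4) ≤
      μ.real {ω | (v * ∑' p, a p ^ 2) / 2 ≤ (∑' p, a p * X p ω + t) ^ 2} := by
  have hC := h.pos
  set W := ∑' p, a p ^ 2 with hWd
  set Y₀ : Ω → ℝ := fun ω => ∑' p, a p * X p ω with hY₀
  set Y : Ω → ℝ := fun ω => Y₀ ω + t with hY
  have hsq := summable_sq ha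
  have hWl : Tendsto (fun N => ∑ p ∈ PN N, a p ^ 2) atTop (𝓝 W) := hsq.hasSum.comp tendsto_PN
  have h1 : ∫ ω, Y₀ ω ∂μ = 0 := by
    have e := h.lim_int ha 1
    simp only [pow_one] at e
    refine tendsto_nhds_unique e ?_
    simp_rw [h.mean_Y a]
    exact tendsto_const_nhds
  have h2 : v * W ≤ ∫ ω, Y₀ ω ^ 2 ∂μ :=
    le_of_tendsto_of_tendsto (hWl.const_mul v) (h.lim_int ha 2)
      (Eventually.of_forall fun N => h.second a (PN N) fun p _ => hv p)
  have h4 : ∫ ω, Y₀ ω ^ 4 ∂μ ≤ 3 * C ^ 4 * W ^ 2 := by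
    refine le_of_tendsto_of_tendsto (h.lim_int ha 4) ((hWl.pow 2).const_mul (3 * C ^ 4))
      (Eventually.of_forall fun N => (h.moments a (PN N)).2)
  have hYm₀ : Measurable Y₀ := h.meas_inf ha
  have hYm : Measurable Y := hYm₀.add_const t
  have hvC : v ≤ C ^ 2 := by
    have : ∃ p, a p ≠ 0 := by
      by_contra hcon
      push Not at hcon
      have : W = 0 := by
        rw [hWd]
        simp [hcon]
      linarith
    obtain ⟨p, hp⟩ := this
    have := h.mom_X p 1
    norm_num at this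
    exact (hv p hp).trans this
  have hYi₀ : ∀ j, Integrable (fun ω => Y₀ ω ^ j) μ := by
    intro j
    refine Integrable.of_bound (C := (C * ∑' p, |a p|) ^ j) (hYm₀.pow_const j).aestronglyMeasurable
      (Eventually.of_forall fun ω => ?_)
    rw [Real.norm_eq_abs, abs_pow]
    exact pow_le_pow_left₀ (abs_nonneg _) (h.bd_inf ha ω) j
  have hYb : ∀ ω, |Y ω| ≤ C * ∑' p, |a p| + |t| := fun ω =>
    (abs_add_le _ _).trans (by
      have := h.bd_inf ha ω
      linarith)
  have hYi : ∀ j, Integrable (fun ω => Y ω ^ j) μ := by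
    intro j
    refine Integrable.of_bound (C := (C * ∑' p, |a p| + |t|) ^ j)
      (hYm.pow_const j).aestronglyMeasurable (Eventually.of_forall fun ω => ?_)
    rw [Real.norm_eq_abs, abs_pow]
    exact pow_le_pow_left₀ (abs_nonneg _) (hYb ω) j
  set Q : ℝ := v * W + t ^ 2 with hQ
  have hQ0 : 0 < Q := by positivity
  set κ : ℝ := 24 * C ^ 4 / v ^ 2 with hκ
  have hκ0 : 0 < κ := by positivity
  have m2 : Q ≤ ∫ ω, Y ω ^ 2 ∂μ := by
    have e0 : ∀ ω, Y ω ^ 2 = Y₀ ω ^ 2 + (2 * t * Y₀ ω + t ^ 2) := by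
      intro ω
      change (Y₀ ω + t) ^ 2 = _
      ring
    have i1 : Integrable (fun ω => 2 * t * Y₀ ω) μ := by
      have := hYi₀ 1
      simp only [pow_one] at this
      exact this.const_mul _
    have i2 : Integrable (fun _ : Ω => t ^ 2) μ := integrable_const _
    have i12 : Integrable (fun ω => 2 * t * Y₀ ω + t ^ 2) μ := i1.add i2
    simp_rw [e0]
    rw [integral_add (hYi₀ 2) i12, integral_add i1 i2, integral_const_mul, h1, integral_const]
    simp
    linarith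
  have m4 : ∫ ω, Y ω ^ 4 ∂μ ≤ κ * Q ^ 2 := by
    have e0 : ∀ ω, Y ω ^ 4 ≤ 8 * Y₀ ω ^ 4 + 8 * t ^ 4 := by
      intro ω
      change (Y₀ ω + t) ^ 4 ≤ _
      have e1 : (Y₀ ω + t) ^ 4 = ((Y₀ ω + t) ^ 2) ^ 2 := by ring
      have e2 : (Y₀ ω + t) ^ 2 ≤ 2 * (Y₀ ω ^ 2 + t ^ 2) := by nlinarith [sq_nonneg (Y₀ ω - t)]
      have e3 : ((Y₀ ω + t) ^ 2) ^ 2 ≤ (2 * (Y₀ ω ^ 2 + t ^ 2)) ^ 2 :=
        pow_le_pow_left₀ (sq_nonneg _) e2 2
      rw [e1]
      refine e3.trans ?_
      nlinarith [sq_nonneg (Y₀ ω ^ 2 - t ^ 2)]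
    have i1 : Integrable (fun ω => 8 * Y₀ ω ^ 4) μ := (hYi₀ 4).const_mul _
    have i2 : Integrable (fun _ : Ω => 8 * t ^ 4) μ := integrable_const _
    have i12 : Integrable (fun ω => 8 * Y₀ ω ^ 4 + 8 * t ^ 4) μ := i1.add i2
    have e := integral_mono (hYi 4) i12 e0
    rw [integral_add i1 i2, integral_const_mul, integral_const] at e
    simp only [probReal_univ, one_smul] at e
    refine e.trans ?_
    have hCv : v ^ 2 ≤ C ^ 4 := by
      have := pow_le_pow_left₀ hv0.le hvC 2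
      calc v ^ 2 ≤ (C ^ 2) ^ 2 := this
        _ = C ^ 4 := by ring
    have e5 : κ * Q ^ 2 = 24 * C ^ 4 * (W ^ 2 + 2 * W * t ^ 2 / v) + 24 * (C ^ 4 / v ^ 2) * t ^ 4 := by
      rw [hκ, hQ]
      field_simp
      ring
    have e6 : 1 ≤ C ^ 4 / v ^ 2 := (one_le_div (by positivity)).2 hCv
    have e7 : 0 ≤ 24 * C ^ 4 * (2 * W * t ^ 2 / v) := by positivity
    have e8 : t ^ 4 ≤ (C ^ 4 / v ^ 2) * t ^ 4 := by
      have : 0 ≤ t ^ 4 := by positivity
      nlinarith
    have e9 : 0 ≤ t ^ 4 := by positivity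
    rw [e5]
    nlinarith
  set A : Set Ω := {ω | v * W / 2 ≤ Y ω ^ 2} with hA
  have hAm : MeasurableSet A := measurableSet_le measurable_const (hYm.pow_const 2)
  set l : ℝ := 2 * κ * Q with hl
  have hl0 : 0 < l := by positivity
  have hpt : ∀ ω, Y ω ^ 2 ≤ Q / 2 + Y ω ^ 4 / (2 * l) + l / 2 * A.indicator (fun _ => 1) ω := by
    intro ω
    by_cases hω : ω ∈ A
    · rw [Set.indicator_of_mem hω]
      have e1 : Y ω ^ 2 ≤ Y ω ^ 4 / (2 * l) + l / 2 * 1 := by
        have e2 : Y ω ^ 4 / (2 * l) + l / 2 * 1 - Y ω ^ 2 = (Y ω ^ 2 - l) ^ 2 / (2 * l) := by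
          field_simp
          ring
        have e3 : 0 ≤ (Y ω ^ 2 - l) ^ 2 / (2 * l) := by positivity
        linarith
      have e4 : 0 ≤ Q / 2 := by positivity
      linarith
    · rw [Set.indicator_of_notMem hω]
      have e1 : Y ω ^ 2 < v * W / 2 := not_le.1 hω
      have e2 : 0 ≤ Y ω ^ 4 / (2 * l) := by positivity
      have e3 : v * W / 2 ≤ Q / 2 := by
        have := sq_nonneg t
        linarith
      linarith
  have hint : ∫ ω, Y ω ^ 2 ∂μ ≤ Q / 2 + (∫ ω, Y ω ^ 4 ∂μ) / (2 * l) + l / 2 * μ.real A := by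
    have i1 : Integrable (fun _ : Ω => Q / 2) μ := integrable_const _
    have i2 : Integrable (fun ω => Y ω ^ 4 / (2 * l)) μ := (hYi 4).div_const _
    have i3 : Integrable (fun ω => l / 2 * A.indicator (fun _ => (1 : ℝ)) ω) μ :=
      ((integrable_const (1 : ℝ)).indicator hAm).const_mul _
    have i12 : Integrable (fun ω => Q / 2 + Y ω ^ 4 / (2 * l)) μ := i1.add i2
    have i123 : Integrable (fun ω => Q / 2 + Y ω ^ 4 / (2 * l) +
        l / 2 * A.indicator (fun _ => (1 : ℝ)) ω) μ := i12.add i3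
    have e := integral_mono (hYi 2) i123 hpt
    have e2 : ∫ ω, (Q / 2 + Y ω ^ 4 / (2 * l) +
        l / 2 * A.indicator (fun _ => (1 : ℝ)) ω) ∂μ =
        Q / 2 + (∫ ω, Y ω ^ 4 ∂μ) / (2 * l) + l / 2 * μ.real A := by
      rw [integral_add i12 i3, integral_add i1 i2, integral_const, integral_div,
        integral_const_mul]
      have e3 : ∫ ω, A.indicator (fun _ => (1 : ℝ)) ω ∂μ = μ.real A := by
        rw [integral_indicator hAm]
        simp
      rw [e3]
      simp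
    rw [e2] at e
    exact e
  have h5 : (∫ ω, Y ω ^ 4 ∂μ) / (2 * l) ≤ Q / 4 := by
    rw [div_le_iff₀ (by positivity)]
    have : Q / 4 * (2 * l) = κ * Q ^ 2 := by
      rw [hl]
      ring
    rw [this]
    exact m4
  have h6 : Q / 4 ≤ l / 2 * μ.real A := by linarith
  have h7 : l / 2 * μ.real A = (κ * μ.real A) * Q := by
    rw [hl]
    ring
  have h8 : 1 / 4 ≤ κ * μ.real A := by
    refine le_of_mul_le_mul_right ?_ hQ0
    rw [← h7]
    linarith
  rw [hκ, div_mul_eq_mul_div, le_div_iff₀ (by positivity)] at h8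
  rw [div_le_iff₀ (by positivity)]
  linarith

end Pool.Agent.P8H9.RD
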