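import Pool.Agent.P8H9.AV.Main

/-! First and second moments of the trace of Frobenius in the family. -/

set_option autoImplicit false

namespace Pool.Agent.P8H9.RD

open Polynomial Finset Pool.Agent.H341R2.Sharp Pool.Agent.P8H9.AV

variable {F : Type*} [Field F] [Fintype F] [DecidableEq F]

theorem irr_one {P : F[X]} (hP : P ∈ Irr F 1) : P.natDegree = 1 :=
  le_antisymm (mem_Irr.1 hP).2.2 (irr_deg hP)

theorem T_one (g : F[X]) : T g 1 = ∑ P ∈ Irr F 1, lam g P := by
  rw [T_eq g 1 1 le_rfl le_rfl]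
  refine sum_congr rfl fun P hP => ?_
  rw [Icc_self, sum_singleton, irr_one hP]
  simp

theorem card_irr : Fintype.card F ≤ (Irr F 1).card := by
  classical
  have h1 : (univ : Finset F).image (fun a => (X - C a : F[X])) ⊆ Irr F 1 := by
    intro P hP
    rw [mem_image] at hP
    obtain ⟨a, -, rfl⟩ := hP
    exact mem_Irr.2 ⟨monic_X_sub_C a, irreducible_X_sub_C a, (natDegree_X_sub_C a).le⟩
  refine le_trans (le_of_eq ?_) (card_le_card h1)
  rw [card_image_of_injective _ fun a b h => ?_, card_univ]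
  have h2 : (X - C a : F[X]) = X - C b := h
  exact C_injective (sub_right_injective h2)

open Classical in
theorem lam_sq (hF : ringChar F ≠ 2) {P : F[X]} (hP : P ∈ Irr F 1) (g : F[X]) :
    lam g P * lam g P = if P ∣ g then 0 else 1 := by
  obtain ⟨E, _, _, _, φ, -, -, h1, h2⟩ := lam_irr hF (mem_Irr.1 hP).1 (mem_Irr.1 hP).2.1
  rw [h2]
  split_ifs with h
  · rw [(h1 g).2 h]
    simp
  · have h3 : φ g ≠ 0 := fun hc => h ((h1 g).1 hc)
    have := quadraticChar_sq_one h3
    rw [← _root_.sq]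
    exact this

open Classical in
/-- the members divisible by a linear polynomial -/
theorem card_dvd (f : F[X]) {k : ℕ} (hk : 1 ≤ k) {P : F[X]} (hP : P.natDegree = 1) :
    (univ.filter fun c : Fin k → F => P ∣ fam f c).card * Fintype.card F ≤
      Fintype.card F ^ k := by
  obtain ⟨j, rfl⟩ : ∃ j, k = j + 1 := ⟨k - 1, by omega⟩
  have h1 : (univ.filter fun c : Fin (j + 1) → F => P ∣ fam f c).card * Fintype.card F =
      ((univ.filter fun c : Fin (j + 1) → F => P ∣ fam f c) ×ˢ (univ : Finset F)).card := by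
    rw [card_product, card_univ]
  rw [h1]
  have h2 : (Fintype.card F) ^ (j + 1) = (univ : Finset (Fin (j + 1) → F)).card := by
    rw [card_univ, Fintype.card_fun, Fintype.card_fin]
  rw [h2]
  refine card_le_card_of_injOn (fun x => x.1 + Pi.single 0 x.2) (fun _ _ => mem_univ _) ?_
  have hfam : ∀ (c : Fin (j + 1) → F) (t : F), fam f (c + Pi.single 0 t) = fam f c + C t := by
    intro c t
    unfold fam
    rw [add_assoc]
    congr 1
    have : (C t : F[X]) = ∑ i : Fin (j + 1), C ((Pi.single 0 t : Fin (j + 1) → F) i) * X ^ (i : ℕ) := by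
      rw [sum_eq_single 0]
      · simp
      · intro b _ hb
        rw [Pi.single_eq_of_ne hb]
        simp
      · intro h
        exact absurd (mem_univ _) h
    rw [this, ← sum_add_distrib]
    refine sum_congr rfl fun i _ => ?_
    rw [Pi.add_apply, map_add]
    ring
  rintro ⟨c, t⟩ hc ⟨c', t'⟩ hc' h
  simp only [coe_product, Set.mem_prod, coe_filter, mem_univ, true_and, coe_univ, Set.mem_univ,
    and_true] at hc hc'
  have hc1 : P ∣ fam f c := hc
  have hc2 : P ∣ fam f c' := hc'
  have h3 : c + Pi.single 0 t = c' + Pi.single 0 t' := h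
  have h4 := congrArg (fam f) h3
  rw [hfam, hfam] at h4
  have h5 : P ∣ C (t' - t) := by
    have : (C (t' - t) : F[X]) = fam f c - fam f c' := by
      rw [map_sub]
      linear_combination -h4
    rw [this]
    exact dvd_sub hc1 hc2
  have h6 : t' - t = 0 := by
    by_contra hne
    have := natDegree_le_of_dvd h5 (C_ne_zero.2 hne)
    rw [hP, natDegree_C] at this
    omega
  have h7 : t = t' := (sub_eq_zero.1 h6).symm
  subst h7
  rw [add_right_cancel h3]

theorem sum_T (hF : ringChar F ≠ 2) (f : F[X]) {k : ℕ} (hk : 1 ≤ k) :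
    ∑ c : Fin k → F, T (fam f c) 1 = 0 := by
  simp_rw [T_one]
  rw [sum_comm]
  refine sum_eq_zero fun P hP => ?_
  have := sum_prod_lam hF f (k := k) {P}
    (fun Q hQ => by
      rw [mem_singleton] at hQ
      subst hQ
      exact ⟨(mem_Irr.1 hP).1, (mem_Irr.1 hP).2.1⟩) (singleton_nonempty P)
    (by rw [sum_singleton, irr_one hP]; exact hk)
  simpa using this

theorem sum_T_sq (hF : ringChar F ≠ 2) (f : F[X]) {k : ℕ} (hk : 2 ≤ k) :
    ((Fintype.card F : ℤ) - 1) * (Fintype.card F : ℤ) ^ k ≤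
      ∑ c : Fin k → F, T (fam f c) 1 * T (fam f c) 1 := by
  classical
  simp_rw [T_one, sum_mul_sum]
  rw [sum_comm]
  have hq : 0 < (Fintype.card F : ℤ) := by exact_mod_cast Fintype.card_pos
  have h1 : ∀ P ∈ Irr F 1, ((Fintype.card F : ℤ) - 1) * (Fintype.card F : ℤ) ^ k ≤
      Fintype.card F * ∑ c : Fin k → F, ∑ Q ∈ Irr F 1, lam (fam f c) P * lam (fam f c) Q := by
    intro P hP
    rw [sum_comm, sum_eq_single_of_mem P hP]
    · simp_rw [lam_sq hF hP]
      have h2 : ∑ c : Fin k → F, (if P ∣ fam f c then (0 : ℤ) else 1) =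
          (Fintype.card F : ℤ) ^ k - (univ.filter fun c : Fin k → F => P ∣ fam f c).card := by
        have h3 : ∑ c : Fin k → F, (if P ∣ fam f c then (0 : ℤ) else 1) =
            ∑ c : Fin k → F, ((1 : ℤ) - if P ∣ fam f c then 1 else 0) := by
          refine sum_congr rfl fun c _ => ?_
          split_ifs <;> simp
        rw [h3, sum_sub_distrib, sum_const, card_univ, Fintype.card_fun, Fintype.card_fin,
          card_filter]
        push_cast
        simp
      rw [h2]
      have h4 := card_dvd f (by omega : 1 ≤ k) (irr_one hP)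
      have h5 : ((univ.filter fun c : Fin k → F => P ∣ fam f c).card : ℤ) * Fintype.card F ≤
        (Fintype.card F : ℤ) ^ k := by exact_mod_cast h4
      linarith
    · intro Q hQ hQP
      have := sum_prod_lam hF f (k := k) {P, Q}
        (fun R hR => by
          rw [mem_insert, mem_singleton] at hR
          rcases hR with rfl | rfl
          · exact ⟨(mem_Irr.1 hP).1, (mem_Irr.1 hP).2.1⟩
          · exact ⟨(mem_Irr.1 hQ).1, (mem_Irr.1 hQ).2.1⟩) (insert_nonempty _ _)
        (by rw [sum_pair (Ne.symm hQP), irr_one hP, irr_one hQ]; exact hk)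
      simp_rw [prod_pair (Ne.symm hQP)] at this
      exact this
  have h2 := sum_le_sum h1
  rw [sum_const, ← mul_sum, nsmul_eq_mul] at h2
  have h3 : (Fintype.card F : ℤ) ≤ (Irr F 1).card := by exact_mod_cast card_irr
  have h4 : 0 ≤ ((Fintype.card F : ℤ) - 1) * (Fintype.card F : ℤ) ^ k :=
    mul_nonneg (by omega) (by positivity)
  have h5 : (Fintype.card F : ℤ) * (((Fintype.card F : ℤ) - 1) * (Fintype.card F : ℤ) ^ k) ≤
      Fintype.card F * ∑ P ∈ Irr F 1, ∑ c : Fin k → F, ∑ Q ∈ Irr F 1,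
        lam (fam f c) P * lam (fam f c) Q :=
    (mul_le_mul_of_nonneg_right h3 h4).trans h2
  exact le_of_mul_le_mul_left h5 hq

open Classical in
/-- the trace of Frobenius of the separable members -/
noncomputable def tr (g : F[X]) (j : ℕ) : ℝ := if g.Separable then (T g j : ℝ) else 0

theorem tr_bd (hF : ringChar F ≠ 2) {g : F[X]} (hg : g.Monic) (hodd : Odd g.natDegree) (j : ℕ)
    (hj : 1 ≤ j) : |tr g j| ≤ (5 * g.natDegree : ℕ) * AV.sq F ^ j := by
  unfold tr
  split_ifs
  · exact T_bd hF hg hodd j hj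
  · rw [abs_zero]
    have := sq_pos (F := F)
    positivity

open Classical in
/-- the mean and the second moment -/
theorem tr_moments (hF : ringChar F ≠ 2) {f : F[X]} (hf : f.Monic) (hodd : Odd f.natDegree)
    {k : ℕ} (hk2 : 2 ≤ k) (hk : k ≤ f.natDegree) (D : ℝ) (hD0 : 0 ≤ D)
    (hD : ((univ.filter fun c : Fin k → F => ¬ (fam f c).Separable).card : ℝ) * Fintype.card F ≤
      D * (Fintype.card F : ℝ) ^ k) :
    |∑ c : Fin k → F, tr (fam f c) 1| ≤ D * (5 * f.natDegree : ℕ) * (Fintype.card F : ℝ) ^ k ∧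
    ((Fintype.card F : ℝ) - 1 - D * (5 * f.natDegree : ℕ) ^ 2) * (Fintype.card F : ℝ) ^ k ≤
      ∑ c : Fin k → F, tr (fam f c) 1 ^ 2 := by
  set q : ℝ := (Fintype.card F : ℝ) with hq
  have hq1 : 1 ≤ q := by
    rw [hq]
    exact_mod_cast (Fintype.card_pos : 0 < Fintype.card F)
  have hs := sq_pos (F := F)
  have hss : AV.sq F ^ 2 = q := Real.sq_sqrt (by rw [← hq]; linarith)
  have hs1 : AV.sq F ≤ q := by
    have : 1 ≤ AV.sq F := by
      unfold AV.sq
      rw [← hq]
      exact Real.one_le_sqrt.2 hq1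
    nlinarith
  set K : ℝ := ((5 * f.natDegree : ℕ) : ℝ) with hK
  have hK0 : 0 ≤ K := by positivity
  set B := univ.filter fun c : Fin k → F => ¬ (fam f c).Separable with hB
  have hb : ∀ c : Fin k → F, |(T (fam f c) 1 : ℝ)| ≤ K * AV.sq F := by
    intro c
    obtain ⟨h1, h2⟩ := fam_monic hf hk c
    have := T_bd hF h1 (by rwa [h2]) 1 le_rfl
    rwa [h2, pow_one] at this
  have hBq : (B.card : ℝ) * q ≤ D * q ^ k := hD
  have e1 : ∑ c : Fin k → F, (T (fam f c) 1 : ℝ) = 0 := by
    have := sum_T hF f (k := k) (by omega)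
    exact_mod_cast this
  have e2 : (q - 1) * q ^ k ≤ ∑ c : Fin k → F, (T (fam f c) 1 : ℝ) ^ 2 := by
    have := sum_T_sq hF f hk2
    have h3 : (((Fintype.card F : ℤ) - 1) * (Fintype.card F : ℤ) ^ k : ℝ) ≤
      ∑ c : Fin k → F, (T (fam f c) 1 : ℝ) * T (fam f c) 1 := by exact_mod_cast this
    simp_rw [_root_.sq]
    push_cast at h3
    exact h3
  have split : ∀ φ : ℝ → ℝ, φ 0 = 0 → ∑ c : Fin k → F, φ (tr (fam f c) 1) =
      ∑ c : Fin k → F, φ (T (fam f c) 1) - ∑ c ∈ B, φ (T (fam f c) 1) := by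
    intro φ hφ
    rw [eq_sub_iff_add_eq, hB, sum_filter, ← sum_add_distrib]
    refine sum_congr rfl fun c _ => ?_
    unfold tr
    split_ifs with h
    · rw [add_zero]
    · rw [hφ, zero_add]
  constructor
  · have h1 := split id rfl
    simp only [id] at h1
    rw [h1, e1, zero_sub, abs_neg]
    calc |∑ c ∈ B, (T (fam f c) 1 : ℝ)| ≤ ∑ c ∈ B, |(T (fam f c) 1 : ℝ)| := abs_sum_le_sum_abs _ _
      _ ≤ ∑ _c ∈ B, K * q := sum_le_sum fun c _ =>
          (hb c).trans (mul_le_mul_of_nonneg_left hs1 hK0)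
      _ = K * (B.card * q) := by
          rw [sum_const, nsmul_eq_mul]
          ring
      _ ≤ K * (D * q ^ k) := mul_le_mul_of_nonneg_left hBq hK0
      _ = _ := by ring
  · have h1 := split (fun x => x ^ 2) (by norm_num)
    rw [h1]
    have h2 : ∑ c ∈ B, (T (fam f c) 1 : ℝ) ^ 2 ≤ D * K ^ 2 * q ^ k := by
      calc ∑ c ∈ B, (T (fam f c) 1 : ℝ) ^ 2 ≤ ∑ _c ∈ B, K ^ 2 * q := by
            refine sum_le_sum fun c _ => ?_
            rw [← sq_abs, ← hss, ← mul_pow]
            exact pow_le_pow_left₀ (abs_nonneg _) (hb c) 2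
        _ = K ^ 2 * (B.card * q) := by
            rw [sum_const, nsmul_eq_mul]
            ring
        _ ≤ K ^ 2 * (D * q ^ k) := mul_le_mul_of_nonneg_left hBq (by positivity)
        _ = _ := by ring
    linarith

end Pool.Agent.P8H9.RD
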